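import Pool.Agent.SM4.Defs

/-! MP_72ffec_pr, four coordinates: basic lemmas. -/

open MeasureTheory ProbabilityTheory Real
open scoped BigOperators ENNReal

namespace SM4

open SMx SM3

-- BEGIN neg4
/-- `γ` is symmetric in one coordinate: `z_k → -z_k` -/
theorem int_flip {F : (Fin 4 → ℝ) → ℝ} (hF : Gr F) (k : Fin 4) :
    ∫ z, F (Function.update z k (-z k)) ∂(γ (Fin 4)) = ∫ z, F z ∂(γ (Fin 4)) := by
  have h1 : MeasurePreserving (fun t : ℝ => -t) (gaussianReal 0 1) (gaussianReal 0 1) := by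
    refine ⟨measurable_neg, ?_⟩
    have h := gaussianReal_map_neg (μ := 0) (v := 1)
    rw [neg_zero] at h
    exact h
  have h2 : ∀ i : Fin 4, MeasurePreserving (fun t : ℝ => if i = k then -t else t)
      (gaussianReal 0 1) (gaussianReal 0 1) := by
    intro i
    by_cases hi : i = k
    · simpa only [hi, if_true] using h1
    · simp only [hi, if_false]
      exact MeasurePreserving.id _
  have hm : MeasurePreserving (fun (z : Fin 4 → ℝ) (i : Fin 4) => if i = k then -z i else z i)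
      (γ (Fin 4)) (γ (Fin 4)) :=
    measurePreserving_pi (fun _ => gaussianReal 0 1) (fun _ => gaussianReal 0 1) h2
  have e : ∀ z : Fin 4 → ℝ, Function.update z k (-z k) = fun i => if i = k then -z i else z i := by
    intro z
    funext i
    by_cases hi : i = k
    · subst hi
      simp
    · simp [hi]
  simp only [e]
  have hmap := hm.map_eq
  have hF1 : AEStronglyMeasurable F (Measure.map (fun (z : Fin 4 → ℝ) (i : Fin 4) => if i = k then -z i else z i)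
      (γ (Fin 4))) := by
    rw [hmap]
    exact hF.int.aestronglyMeasurable
  have := integral_map hm.measurable.aemeasurable hF1
  rw [hmap] at this
  exact this.symm
-- END neg4

-- BEGIN fub4
private theorem fub4_mp (k : Fin 4) :
    MeasurePreserving (fun p : (Fin 4 → ℝ) × ℝ => Function.update p.1 k p.2)
      ((γ (Fin 4)).prod (gaussianReal 0 1)) (γ (Fin 4)) := by
  refine ⟨measurable_update', ?_⟩
  symm
  refine Measure.pi_eq fun s hs => ?_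
  rw [Measure.map_apply measurable_update' (MeasurableSet.univ_pi hs)]
  have e1 : (fun p : (Fin 4 → ℝ) × ℝ => Function.update p.1 k p.2) ⁻¹' (Set.univ.pi s) =
      (Set.univ.pi (Function.update s k Set.univ)) ×ˢ (s k) := by
    ext p
    simp only [Set.mem_preimage, Set.mem_pi, Set.mem_univ, true_implies, Set.mem_prod]
    constructor
    · intro h
      refine ⟨fun i => ?_, ?_⟩
      · by_cases hi : i = k
        · subst hi
          simp
        · have := h i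
          rw [Function.update_of_ne hi] at this
          rw [Function.update_of_ne hi]
          exact this
      · have := h k
        rw [Function.update_self] at this
        exact this
    · rintro ⟨h1, h2⟩ i
      by_cases hi : i = k
      · subst hi
        rw [Function.update_self]
        exact h2
      · have := h1 i
        rw [Function.update_of_ne hi] at this
        rw [Function.update_of_ne hi]
        exact this
  rw [e1, Measure.prod_prod, γ, Measure.pi_pi,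
    ← Finset.mul_prod_erase Finset.univ (fun i => (gaussianReal 0 1) (Function.update s k Set.univ i))
      (Finset.mem_univ k),
    ← Finset.mul_prod_erase Finset.univ (fun i => (gaussianReal 0 1) (s i)) (Finset.mem_univ k)]
  rw [Function.update_self, measure_univ, one_mul, mul_comm]
  congr 1
  refine Finset.prod_congr rfl fun i hi => ?_
  rw [Function.update_of_ne (Finset.ne_of_mem_erase hi)]

private theorem fub4_aux (F : (Fin 4 → ℝ) → ℝ) (hF : Integrable F (γ (Fin 4))) (k : Fin 4) :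
    ∫ z, F z ∂(γ (Fin 4)) =
      ∫ z, ∫ t, F (Function.update z k t) ∂(gaussianReal 0 1) ∂(γ (Fin 4)) := by
  have hmp := fub4_mp k
  have h1 : Integrable (fun p : (Fin 4 → ℝ) × ℝ => F (Function.update p.1 k p.2))
      ((γ (Fin 4)).prod (gaussianReal 0 1)) := hmp.integrable_comp_of_integrable hF
  rw [← integral_prod _ h1]
  conv_lhs => rw [← hmp.map_eq]
  rw [integral_map hmp.measurable.aemeasurable]
  rw [hmp.map_eq]
  exact hF.aestronglyMeasurable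

/-- integration of one coordinate first (as `SM3.fub`, whose private `fub_mp` is for all `ι`) -/
theorem fub4 {F : (Fin 4 → ℝ) → ℝ} (hF : Gr F) (k : Fin 4) :
    ∫ z, F z ∂(γ (Fin 4)) = ∫ z, ∫ t, F (Function.update z k t) ∂(gaussianReal 0 1) ∂(γ (Fin 4)) :=
  fub4_aux F hF.int k

/-- a function not depending on `z_k` is orthogonal to `z_k` (`SMx.stein` with `g1 = 0`) -/
theorem orth4 {Q : (Fin 4 → ℝ) → ℝ} (hQ : Gr Q) (k : Fin 4)
    (h : ∀ z t, Q (Function.update z k t) = Q z) : ∫ z, z k * Q z ∂(γ (Fin 4)) = 0 := by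
  have h1 := stein Q (fun _ => 0) k hQ (Gr.const 0) (fun z => by
    have e : (fun t => Q (Function.update z k t)) = fun _ => Q z := funext fun t => h z t
    rw [e]
    exact hasDerivAt_const _ _)
  rw [h1, integral_zero]
-- END fub4

-- BEGIN sqr
private theorem sqr_cg {n : ℕ} {ι : Type} [Fintype ι] (A : Fin n → ι → ℝ) :
    CG (γ ι) (lin A) := by
  refine ⟨?_, fun i => mom1 A i⟩
  have hi : iIndepFun (fun (k : ι) (z : ι → ℝ) => z k) (γ ι) :=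
    iIndepFun_pi (μ := fun _ : ι => gaussianReal 0 1) (X := fun _ : ι => (id : ℝ → ℝ))
      fun _ => aemeasurable_id
  have hg : ∀ k : ι, HasGaussianLaw (fun z : ι → ℝ => z k) (γ ι) := by
    intro k
    refine ⟨?_⟩
    have e : (γ ι).map (fun z : ι → ℝ => z k) = gaussianReal 0 1 :=
      (measurePreserving_eval (fun _ : ι => gaussianReal 0 1) k).map_eq
    rw [e]
    infer_instance
  have h1 : HasGaussianLaw (fun (z : ι → ℝ) => fun k => z k) (γ ι) := iIndepFun.hasGaussianLaw hg hi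
  let L : (ι → ℝ) →L[ℝ] (Fin n → ℝ) := ContinuousLinearMap.pi fun i =>
    ∑ k, A i k • (ContinuousLinearMap.proj k : (ι → ℝ) →L[ℝ] ℝ)
  have h2 := h1.map_fun L
  have e2 : (fun z : ι → ℝ => L fun k => z k) = lin A := by
    funext z i
    simp [L, lin]
  rwa [e2] at h2

/-- every covariance matrix of a linear image has a square root (as in the proof of
`SM3.EG_congr`: `SMx.root` for `γ ι`, `lin A`, with `SMx.mom2`) -/
theorem square {n : ℕ} {ι : Type} [Fintype ι] (A : Fin n → ι → ℝ) :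
    ∃ a : Fin n → Fin n → ℝ, ∀ i j, cv a i j = cv A i j := by
  obtain ⟨a, ha⟩ := root (γ ι) (lin A) (sqr_cg A)
  have hA : ∀ i j, ∫ ω, lin A ω i * lin A ω j ∂(γ ι) = cv A i j := fun i j => mom2 A i j
  exact ⟨a, fun i j => (ha i j).trans (hA i j)⟩
-- END sqr

-- BEGIN gm4
theorem gram4 {ι : Type} [Fintype ι] (A : Fin 4 → ι → ℝ) (u : Fin 4 → ℝ) :
    0 ≤ ∑ i, ∑ j, u i * u j * cv A i j := by
  have h : ∑ i, ∑ j, u i * u j * cv A i j = ∑ k, (∑ i, u i * A i k) ^ 2 := by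
    simp only [cv, Finset.mul_sum]
    have h1 : ∀ k, (∑ i, u i * A i k) ^ 2 = ∑ i, ∑ j, u i * u j * (A i k * A j k) := by
      intro k
      rw [sq, Finset.sum_mul_sum]
      refine Finset.sum_congr rfl fun i _ => Finset.sum_congr rfl fun j _ => ?_
      ring
    simp only [h1]
    rw [Finset.sum_comm]
    have h2 : ∀ i, ∑ j, ∑ k, u i * u j * (A i k * A j k) =
        ∑ k, ∑ j, u i * u j * (A i k * A j k) := fun i => Finset.sum_comm
    conv_rhs => rw [Finset.sum_comm]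
    rw [Finset.sum_comm]
    exact Finset.sum_congr rfl fun i _ => h2 i
  rw [h]
  exact Finset.sum_nonneg fun k _ => sq_nonneg _

theorem cv_symm4 {ι : Type} [Fintype ι] (A : Fin 4 → ι → ℝ) (i j : Fin 4) :
    cv A i j = cv A j i := by
  exact Finset.sum_congr rfl fun k _ => mul_comm _ _

theorem A4_symm {ι : Type} [Fintype ι] (β : ℝ) (A : Fin 4 → ι → ℝ) (i j : Fin 4) :
    A4 β A i j = A4 β A j i := by
  unfold A4
  congr 1
  funext x
  ring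
-- END gm4

-- BEGIN pm4
private theorem pm4_Sm (β : ℝ) (x : Fin 4 → ℝ) (σ : Equiv.Perm (Fin 4)) :
    Sm β (fun i => x (σ i)) = Sm β x := by
  unfold Sm
  exact Equiv.sum_comp σ (fun k => exp (β * x k))

/-- permuting the coordinates (as `SM3.EG_perm`, `Lg_perm`, `pw_perm`) -/
theorem EG_perm4 {ι : Type} [Fintype ι] (A : Fin 4 → ι → ℝ) (σ : Equiv.Perm (Fin 4))
    (g : (Fin 4 → ℝ) → ℝ) : EG (fun i => A (σ i)) g = EG A (fun x => g (fun i => x (σ i))) := by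
  rfl

theorem Lg_perm4 (β : ℝ) (x : Fin 4 → ℝ) (σ : Equiv.Perm (Fin 4)) :
    Lg β (fun i => x (σ i)) = Lg β x := by
  unfold Lg
  rw [pm4_Sm]

private theorem pm4_pw (β : ℝ) (x : Fin 4 → ℝ) (σ : Equiv.Perm (Fin 4)) (i : Fin 4) :
    pw β (fun i => x (σ i)) i = pw β x (σ i) := by
  unfold pw
  rw [pm4_Sm]

theorem A4_perm {ι : Type} [Fintype ι] (β : ℝ) (A : Fin 4 → ι → ℝ) (σ : Equiv.Perm (Fin 4))
    (i j : Fin 4) : A4 β (fun i => A (σ i)) i j = A4 β A (σ i) (σ j) := by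
  unfold A4
  rw [EG_perm4]
  congr 1
  funext x
  rw [Lg_perm4, pm4_pw, pm4_pw]

theorem F4_perm {ι : Type} [Fintype ι] (β : ℝ) (A : Fin 4 → ι → ℝ) (σ : Equiv.Perm (Fin 4)) :
    F4 β (fun i => A (σ i)) = F4 β A := by
  unfold F4
  rw [EG_perm4]
  congr 1
  funext x
  rw [Lg_perm4]
-- END pm4

-- BEGIN sc4
/-- scaling: `β` is absorbed in the matrix (as `SM3.AA_scale`) -/
theorem A4_scale {ι : Type} [Fintype ι] (β : ℝ) (A : Fin 4 → ι → ℝ) (i j : Fin 4) :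
    A4 β A i j = A4 1 (fun i k => β * A i k) i j := by
  have h1 : ∀ (z : ι → ℝ) (k : Fin 4), lin (fun i k => β * A i k) z k = β * lin A z k := by
    intro z k
    unfold lin
    rw [Finset.mul_sum]
    exact Finset.sum_congr rfl fun l _ => by ring
  have h2 : ∀ z : ι → ℝ, Sm 1 (lin (fun i k => β * A i k) z) = Sm β (lin A z) := by
    intro z
    unfold Sm
    exact Finset.sum_congr rfl fun k _ => by rw [h1, one_mul]
  unfold A4 EG
  congr 1
  funext z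
  unfold Lg pw
  beta_reduce
  rw [h2, h1, h1, one_mul, one_mul]
-- END sc4

-- BEGIN gde
/-- `log t / t²` decreases for `t ≥ 4` -/
theorem g_anti {s t : ℝ} (hs : 4 ≤ s) (hst : s ≤ t) : log t / t ^ 2 ≤ log s / s ^ 2 := by
  have hs0 : 0 < s := by linarith
  have ht0 : 0 < t := by linarith
  have h4 : (1 : ℝ) ≤ log s := by
    have h1 : exp 1 ≤ s := by linarith [Real.exp_one_lt_d9]
    calc (1 : ℝ) = log (exp 1) := (Real.log_exp 1).symm
      _ ≤ log s := Real.log_le_log (exp_pos 1) h1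
  have h5 : log t ≤ log s + (t / s - 1) := by
    have h6 := Real.log_le_sub_one_of_pos (x := t / s) (by positivity)
    rw [Real.log_div ht0.ne' hs0.ne'] at h6
    linarith
  rw [div_le_div_iff₀ (by positivity) (by positivity)]
  have h7 : log t * s ^ 2 ≤ (log s + (t / s - 1)) * s ^ 2 :=
    mul_le_mul_of_nonneg_right h5 (by positivity)
  have h8 : (log s + (t / s - 1)) * s ^ 2 = log s * s ^ 2 + (t - s) * s := by
    field_simp
  have h9 : (t - s) * s ≤ log s * ((t - s) * (t + s)) := by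
    have h10 : 0 ≤ (t - s) * (t + s) := mul_nonneg (by linarith) (by linarith)
    have h11 : (t - s) * s ≤ (t - s) * (t + s) :=
      mul_le_mul_of_nonneg_left (by linarith) (by linarith)
    nlinarith [mul_nonneg (sub_nonneg.2 h4) h10]
  nlinarith
-- END gde

-- BEGIN dd4
theorem dd4_two (w : ℝ) : 2 ≤ exp w + exp (-w) := by
  have h := Real.one_le_cosh w
  rw [Real.cosh_eq] at h
  linarith

theorem dd4_ge (w y z : ℝ) : 4 ≤ 2 * exp w * cosh y + 2 * exp (-w) * cosh z := by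
  have h1 := mul_le_mul_of_nonneg_left (Real.one_le_cosh y) (exp_pos w).le
  have h2 := mul_le_mul_of_nonneg_left (Real.one_le_cosh z) (exp_pos (-w)).le
  have h3 := dd4_two w
  linarith

theorem Dd_ge (w y z : ℝ) : 4 ≤ Dd w y z := dd4_ge w y z

theorem Do_ge (η P Q : ℝ) : 4 ≤ Do η P Q := dd4_ge (η / 2) ((P - Q) / 2) ((P + Q) / 2)

theorem Dd_negz (w y z : ℝ) : Dd w y (-z) = Dd w y z := by
  unfold Dd
  rw [Real.cosh_neg]

/-- `Q → -Q` is `η → -η` -/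
theorem Do_neg (η P Q : ℝ) : Do (-η) P Q = Do η P (-Q) := by
  unfold Do
  rw [show P - -Q = P + Q by ring, show P + -Q = P - Q by ring, show -η / 2 = -(η / 2) by ring, neg_neg]
  ring

/-- for `η ≥ 0`, `P ≥ 0`, `Q ≥ 0`: `cosh ((P-Q)/2) ≤ cosh ((P+Q)/2)` has the larger weight -/
theorem Do_le {η P Q : ℝ} (h1 : 0 ≤ η) (h2 : 0 ≤ P) (h3 : 0 ≤ Q) : Do η P Q ≤ Do η P (-Q) := by
  have h4 : cosh ((P - Q) / 2) ≤ cosh ((P + Q) / 2) := by
    rw [Real.cosh_le_cosh, abs_of_nonneg (show 0 ≤ (P + Q) / 2 by positivity)]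
    rw [abs_le]
    constructor <;> linarith
  have h5 : exp (-(η / 2)) ≤ exp (η / 2) := by
    apply Real.exp_le_exp.2
    linarith
  have h6 := mul_nonneg (sub_nonneg.2 h4) (sub_nonneg.2 h5)
  unfold Do
  rw [show P - -Q = P + Q by ring, show P + -Q = P - Q by ring]
  linarith

/-- changing the sign of `P` and `Q` changes nothing -/
theorem Do_PQ (η P Q : ℝ) : Do η (-P) (-Q) = Do η P Q := by
  unfold Do
  rw [show (-P - -Q) / 2 = -((P - Q) / 2) by ring, show (-P + -Q) / 2 = -((P + Q) / 2) by ring,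
    Real.cosh_neg, Real.cosh_neg]
-- END dd4

-- BEGIN lbd
/-- the vector represented by `Bd` -/
theorem lin_Bd (σ lam τ ω υ : ℝ) (z : Fin 4 → ℝ) : lin (Bd σ lam τ ω υ) z =
    ![υ * z 3 + ω * z 2 + σ * z 0, υ * z 3 - ω * z 2 + (lam * (σ * z 0) + τ * z 1),
      υ * z 3 - ω * z 2 - (lam * (σ * z 0) + τ * z 1), υ * z 3 + ω * z 2 - σ * z 0] := by
  funext i
  fin_cases i <;> simp [lin, Bd, Fin.sum_univ_four] <;> ring

theorem cv_Bd (σ lam τ ω υ : ℝ) :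
    (∀ i j, cv (Bd σ lam τ ω υ) i j = cv (Bd σ lam τ ω υ) j i) ∧
    cv (Bd σ lam τ ω υ) 0 0 = σ ^ 2 + ω ^ 2 + υ ^ 2 ∧
    cv (Bd σ lam τ ω υ) 1 1 = lam ^ 2 * σ ^ 2 + τ ^ 2 + ω ^ 2 + υ ^ 2 ∧
    cv (Bd σ lam τ ω υ) 2 2 = lam ^ 2 * σ ^ 2 + τ ^ 2 + ω ^ 2 + υ ^ 2 ∧
    cv (Bd σ lam τ ω υ) 3 3 = σ ^ 2 + ω ^ 2 + υ ^ 2 ∧
    cv (Bd σ lam τ ω υ) 0 1 = lam * σ ^ 2 - ω ^ 2 + υ ^ 2 ∧
    cv (Bd σ lam τ ω υ) 2 3 = lam * σ ^ 2 - ω ^ 2 + υ ^ 2 ∧
    cv (Bd σ lam τ ω υ) 0 2 = -(lam * σ ^ 2) - ω ^ 2 + υ ^ 2 ∧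
    cv (Bd σ lam τ ω υ) 1 3 = -(lam * σ ^ 2) - ω ^ 2 + υ ^ 2 ∧
    cv (Bd σ lam τ ω υ) 0 3 = -σ ^ 2 + ω ^ 2 + υ ^ 2 ∧
    cv (Bd σ lam τ ω υ) 1 2 = -(lam ^ 2 * σ ^ 2) - τ ^ 2 + ω ^ 2 + υ ^ 2 := by
  refine ⟨fun i j => Finset.sum_congr rfl fun k _ => mul_comm _ _, ?_, ?_, ?_, ?_, ?_, ?_, ?_, ?_,
    ?_, ?_⟩ <;> simp [cv, Bd, Fin.sum_univ_four] <;> ring
-- END lbd

-- BEGIN lbo
/-- the vector represented by `Bo`, with `P = σ z₀`, `Q = lam P + τ z₁`, `η = ω z₂`,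
`ζ = κ η + υ z₃` -/
theorem lin_Bo (σ lam τ ω κ υ : ℝ) (z : Fin 4 → ℝ) : lin (Bo σ lam τ ω κ υ) z =
    ![(κ * (ω * z 2) + υ * z 3) / 2 + ω * z 2 / 2 + (σ * z 0 - (lam * (σ * z 0) + τ * z 1)) / 2,
      (κ * (ω * z 2) + υ * z 3) / 2 + ω * z 2 / 2 - (σ * z 0 - (lam * (σ * z 0) + τ * z 1)) / 2,
      (κ * (ω * z 2) + υ * z 3) / 2 - ω * z 2 / 2 + (σ * z 0 + (lam * (σ * z 0) + τ * z 1)) / 2,
      (κ * (ω * z 2) + υ * z 3) / 2 - ω * z 2 / 2 - (σ * z 0 + (lam * (σ * z 0) + τ * z 1)) / 2] := by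
  funext i
  fin_cases i <;> simp [lin, Bo, Fin.sum_univ_four] <;> ring

theorem cv_Bo (σ lam τ ω κ υ : ℝ) :
    (∀ i j, cv (Bo σ lam τ ω κ υ) i j = cv (Bo σ lam τ ω κ υ) j i) ∧
    cv (Bo σ lam τ ω κ υ) 0 0 = ((1 - lam) ^ 2 * σ ^ 2 + τ ^ 2 + (κ + 1) ^ 2 * ω ^ 2 + υ ^ 2) / 4 ∧
    cv (Bo σ lam τ ω κ υ) 1 1 = ((1 - lam) ^ 2 * σ ^ 2 + τ ^ 2 + (κ + 1) ^ 2 * ω ^ 2 + υ ^ 2) / 4 ∧
    cv (Bo σ lam τ ω κ υ) 2 2 = ((1 + lam) ^ 2 * σ ^ 2 + τ ^ 2 + (κ - 1) ^ 2 * ω ^ 2 + υ ^ 2) / 4 ∧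
    cv (Bo σ lam τ ω κ υ) 3 3 = ((1 + lam) ^ 2 * σ ^ 2 + τ ^ 2 + (κ - 1) ^ 2 * ω ^ 2 + υ ^ 2) / 4 ∧
    cv (Bo σ lam τ ω κ υ) 0 1 = (-((1 - lam) ^ 2 * σ ^ 2) - τ ^ 2 + (κ + 1) ^ 2 * ω ^ 2 + υ ^ 2) / 4 ∧
    cv (Bo σ lam τ ω κ υ) 2 3 = (-((1 + lam) ^ 2 * σ ^ 2) - τ ^ 2 + (κ - 1) ^ 2 * ω ^ 2 + υ ^ 2) / 4 ∧
    cv (Bo σ lam τ ω κ υ) 0 2 = ((1 - lam ^ 2) * σ ^ 2 - τ ^ 2 + (κ ^ 2 - 1) * ω ^ 2 + υ ^ 2) / 4 ∧
    cv (Bo σ lam τ ω κ υ) 1 3 = ((1 - lam ^ 2) * σ ^ 2 - τ ^ 2 + (κ ^ 2 - 1) * ω ^ 2 + υ ^ 2) / 4 ∧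
    cv (Bo σ lam τ ω κ υ) 0 3 = (-((1 - lam ^ 2) * σ ^ 2) + τ ^ 2 + (κ ^ 2 - 1) * ω ^ 2 + υ ^ 2) / 4 ∧
    cv (Bo σ lam τ ω κ υ) 1 2 = (-((1 - lam ^ 2) * σ ^ 2) + τ ^ 2 + (κ ^ 2 - 1) * ω ^ 2 + υ ^ 2) / 4 := by
  refine ⟨fun i j => Finset.sum_congr rfl fun k _ => mul_comm _ _, ?_, ?_, ?_, ?_, ?_, ?_, ?_, ?_,
    ?_, ?_⟩ <;> simp [cv, Bo, Fin.sum_univ_four] <;> ring
-- END lbo

-- BEGIN ptd
/-- the sum of the four exponentials -/
theorem ptd_Sm (g w y z : ℝ) : Sm 1 ![g + w + y, g - w + z, g - w - z, g + w - y] =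
    exp g * Dd w y z := by
  unfold Sm Dd
  rw [Fin.sum_univ_four]
  simp only [Matrix.cons_val_zero, Matrix.cons_val_one, Matrix.cons_val, one_mul]
  rw [show g + w + y = g + (w + y) by ring, show g - w + z = g + (-w + z) by ring,
    show g - w - z = g + (-w + -z) by ring, show g + w - y = g + (w + -y) by ring,
    Real.exp_add g, Real.exp_add g, Real.exp_add g, Real.exp_add g, Real.exp_add w, Real.exp_add w,
    Real.exp_add (-w), Real.exp_add (-w), Real.cosh_eq, Real.cosh_eq]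
  ring

/-- the denominator is positive -/
theorem ptd_pos (w y z : ℝ) : 0 < Dd w y z := by
  unfold Dd
  have h1 := Real.cosh_pos y
  have h2 := Real.cosh_pos z
  have h3 := Real.exp_pos w
  have h4 := Real.exp_pos (-w)
  positivity

/-- pointwise, disphenoid step: the exponentials of `g + w ± y`, `g - w ± z` have the sum
`e^g Dd w y z` -/
theorem pt_Ld (g w y z : ℝ) : Lg 1 ![g + w + y, g - w + z, g - w - z, g + w - y] =
    g + log (Dd w y z) := by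
  unfold Lg
  rw [ptd_Sm, Real.log_mul (Real.exp_ne_zero g) (ptd_pos w y z).ne', Real.log_exp]

theorem pt_qd (g w y z : ℝ) :
    (pw 1 ![g + w + y, g - w + z, g - w - z, g + w - y] 0 -
      pw 1 ![g + w + y, g - w + z, g - w - z, g + w - y] 3) *
    (pw 1 ![g + w + y, g - w + z, g - w - z, g + w - y] 1 -
      pw 1 ![g + w + y, g - w + z, g - w - z, g + w - y] 2) =
    4 * sinh y * sinh z / Dd w y z ^ 2 := by
  have hD := (ptd_pos w y z).ne'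
  have hg := Real.exp_ne_zero g
  have e1 : exp w * exp (-w) = 1 := by rw [← Real.exp_add]; simp
  unfold pw
  rw [ptd_Sm]
  simp only [Matrix.cons_val_zero, Matrix.cons_val_one, Matrix.cons_val, one_mul]
  rw [show g + w + y = g + (w + y) by ring, show g - w + z = g + (-w + z) by ring,
    show g - w - z = g + (-w + -z) by ring, show g + w - y = g + (w + -y) by ring,
    Real.exp_add g, Real.exp_add g, Real.exp_add g, Real.exp_add g, Real.exp_add w, Real.exp_add w,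
    Real.exp_add (-w), Real.exp_add (-w), Real.sinh_eq, Real.sinh_eq]
  rw [mul_div_mul_left _ _ hg, mul_div_mul_left _ _ hg, mul_div_mul_left _ _ hg,
    mul_div_mul_left _ _ hg, ← sub_div, ← sub_div, div_mul_div_comm, ← pow_two]
  congr 1
  calc (exp w * exp y - exp w * exp (-y)) * (exp (-w) * exp z - exp (-w) * exp (-z))
      = (exp w * exp (-w)) * ((exp y - exp (-y)) * (exp z - exp (-z))) := by ring
    _ = 4 * ((exp y - exp (-y)) / 2) * ((exp z - exp (-z)) / 2) := by rw [e1]; ring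
-- END ptd

-- BEGIN pto
theorem pto_exp (ζ η P Q : ℝ) :
    exp (ζ / 2 + η / 2 + (P - Q) / 2) = exp (ζ / 2) * exp (η / 2) * exp ((P - Q) / 2) ∧
    exp (ζ / 2 + η / 2 - (P - Q) / 2) = exp (ζ / 2) * exp (η / 2) * exp (-((P - Q) / 2)) ∧
    exp (ζ / 2 - η / 2 + (P + Q) / 2) = exp (ζ / 2) * exp (-(η / 2)) * exp ((P + Q) / 2) ∧
    exp (ζ / 2 - η / 2 - (P + Q) / 2) = exp (ζ / 2) * exp (-(η / 2)) * exp (-((P + Q) / 2)) := by
  refine ⟨?_, ?_, ?_, ?_⟩ <;> rw [← exp_add, ← exp_add] <;> congr 1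

theorem pto_sm (ζ η P Q : ℝ) : Sm 1 ![ζ / 2 + η / 2 + (P - Q) / 2, ζ / 2 + η / 2 - (P - Q) / 2,
      ζ / 2 - η / 2 + (P + Q) / 2, ζ / 2 - η / 2 - (P + Q) / 2] = exp (ζ / 2) * Do η P Q := by
  obtain ⟨h0, h1, h2, h3⟩ := pto_exp ζ η P Q
  unfold Sm Do
  rw [Fin.sum_univ_four]
  simp only [Matrix.cons_val, one_mul]
  rw [h0, h1, h2, h3, Real.cosh_eq, Real.cosh_eq]
  ring

/-- pointwise, opposite edges: the exponentials have the sum `e^{ζ/2} Do η P Q` -/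
theorem pt_Lo (ζ η P Q : ℝ) : Lg 1 ![ζ / 2 + η / 2 + (P - Q) / 2, ζ / 2 + η / 2 - (P - Q) / 2,
      ζ / 2 - η / 2 + (P + Q) / 2, ζ / 2 - η / 2 - (P + Q) / 2] = ζ / 2 + log (Do η P Q) := by
  have h1 := Do_ge η P Q
  unfold Lg
  rw [pto_sm, Real.log_mul (exp_pos _).ne' (by linarith), Real.log_exp]

theorem pt_qo (ζ η P Q : ℝ) :
    pw 1 ![ζ / 2 + η / 2 + (P - Q) / 2, ζ / 2 + η / 2 - (P - Q) / 2,
      ζ / 2 - η / 2 + (P + Q) / 2, ζ / 2 - η / 2 - (P + Q) / 2] 0 *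
    pw 1 ![ζ / 2 + η / 2 + (P - Q) / 2, ζ / 2 + η / 2 - (P - Q) / 2,
      ζ / 2 - η / 2 + (P + Q) / 2, ζ / 2 - η / 2 - (P + Q) / 2] 1 -
    pw 1 ![ζ / 2 + η / 2 + (P - Q) / 2, ζ / 2 + η / 2 - (P - Q) / 2,
      ζ / 2 - η / 2 + (P + Q) / 2, ζ / 2 - η / 2 - (P + Q) / 2] 2 *
    pw 1 ![ζ / 2 + η / 2 + (P - Q) / 2, ζ / 2 + η / 2 - (P - Q) / 2,
      ζ / 2 - η / 2 + (P + Q) / 2, ζ / 2 - η / 2 - (P + Q) / 2] 3 =
    2 * sinh η / Do η P Q ^ 2 := by
  have h1 := Do_ge η P Q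
  have hD : Do η P Q ≠ 0 := by linarith
  have hz : exp (ζ / 2) ≠ 0 := (exp_pos _).ne'
  unfold pw
  rw [pto_sm]
  simp only [Matrix.cons_val, one_mul]
  rw [div_mul_div_comm, div_mul_div_comm, ← exp_add, ← exp_add, ← sub_div,
    show ζ / 2 + η / 2 + (P - Q) / 2 + (ζ / 2 + η / 2 - (P - Q) / 2) = ζ / 2 + ζ / 2 + η by ring,
    show ζ / 2 - η / 2 + (P + Q) / 2 + (ζ / 2 - η / 2 - (P + Q) / 2) = ζ / 2 + ζ / 2 + -η by ring,
    exp_add _ η, exp_add _ (-η), exp_add (ζ / 2) (ζ / 2), Real.sinh_eq]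
  field_simp
-- END pto

-- BEGIN rpd
/-- representation of a disphenoid with `b ≤ a` by `Bd`: `σ² = (1-c)/2`, `lam = (a-b)/(1-c)`
(`0` if `c = 1`, then `a = b`), `τ² = σ² (1 - lam²)`, `ω² = (1-a-b+c)/4`, `υ² = (1+a+b+c)/4`; the
form at `(1,1,-1,-1)`, `(1,-1,1,-1)`, `(1,-1,-1,1)`, `(1,1,1,1)` gives the signs -/
theorem rep_d (a b c : ℝ)
    (hpsd : ∀ x y z t : ℝ, 0 ≤ x ^ 2 + y ^ 2 + z ^ 2 + t ^ 2 + 2 * a * (x * y + z * t) +
      2 * b * (x * z + y * t) + 2 * c * (x * t + y * z)) (hab : b ≤ a) :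
    ∃ σ lam τ ω υ : ℝ, 0 ≤ lam ∧ σ ^ 2 + ω ^ 2 + υ ^ 2 = 1 ∧
      lam ^ 2 * σ ^ 2 + τ ^ 2 + ω ^ 2 + υ ^ 2 = 1 ∧ lam * σ ^ 2 - ω ^ 2 + υ ^ 2 = a ∧
      -(lam * σ ^ 2) - ω ^ 2 + υ ^ 2 = b ∧ -σ ^ 2 + ω ^ 2 + υ ^ 2 = c ∧
      -(lam ^ 2 * σ ^ 2) - τ ^ 2 + ω ^ 2 + υ ^ 2 = c := by
  have h1 : 0 ≤ 1 - a + b - c := by
    have := hpsd 1 (-1) 1 (-1)
    linarith
  have h2 : 0 ≤ (1 - a - b + c) / 4 := by
    have := hpsd 1 (-1) (-1) 1
    linarith
  have h3 : 0 ≤ (1 + a + b + c) / 4 := by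
    have := hpsd 1 1 1 1
    linarith
  have hc : 0 ≤ 1 - c := by linarith
  have eω := Real.sq_sqrt h2
  have eυ := Real.sq_sqrt h3
  rcases hc.eq_or_lt with h0 | h0
  · have hab' : a = b := by linarith
    refine ⟨0, 0, 0, Real.sqrt ((1 - a - b + c) / 4), Real.sqrt ((1 + a + b + c) / 4), le_rfl,
      ?_, ?_, ?_, ?_, ?_, ?_⟩ <;> rw [eω, eυ] <;> linarith
  · obtain ⟨lam, hlam⟩ : ∃ lam : ℝ, lam = (a - b) / (1 - c) := ⟨_, rfl⟩
    have hl0 : 0 ≤ lam := by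
      rw [hlam]
      exact div_nonneg (by linarith) hc
    have hl1 : lam ≤ 1 := by
      rw [hlam, div_le_one h0]
      linarith
    have hlm : lam * (1 - c) = a - b := by
      rw [hlam, div_mul_cancel₀ _ h0.ne']
    have hs : 0 ≤ (1 - c) / 2 := by linarith
    have ht : 0 ≤ (1 - c) / 2 * (1 - lam ^ 2) := mul_nonneg hs (by nlinarith)
    have eσ := Real.sq_sqrt hs
    have eτ := Real.sq_sqrt ht
    refine ⟨Real.sqrt ((1 - c) / 2), lam, Real.sqrt ((1 - c) / 2 * (1 - lam ^ 2)),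
      Real.sqrt ((1 - a - b + c) / 4), Real.sqrt ((1 + a + b + c) / 4), hl0,
      ?_, ?_, ?_, ?_, ?_, ?_⟩
    · rw [eσ, eω, eυ]
      ring
    · rw [eσ, eτ, eω, eυ]
      ring
    · rw [eσ, eω, eυ]
      linear_combination hlm / 2
    · rw [eσ, eω, eυ]
      linear_combination -hlm / 2
    · rw [eσ, eω, eυ]
      ring
    · rw [eσ, eτ, eω, eυ]
      ring
-- END rpd

-- BEGIN rpo
private theorem rpo_one (U V g : ℝ) (hUV : U ≤ V)
    (h : ∀ p r : ℝ, 0 ≤ U * p ^ 2 + V * r ^ 2 + g * (p * r)) :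
    ∃ s l t : ℝ, 0 ≤ l ∧ (1 - l) ^ 2 * s ^ 2 + t ^ 2 = 4 * U ∧
      (1 + l) ^ 2 * s ^ 2 + t ^ 2 = 4 * V ∧ (1 - l ^ 2) * s ^ 2 - t ^ 2 = 2 * g := by
  have hS : 0 ≤ U + V + g := by
    have := h 1 1
    linarith
  have hT : 0 ≤ U + V - g := by
    have := h 1 (-1)
    linarith
  rcases hS.eq_or_lt with h0 | h0
  · have hVU : V = U := by
      by_contra hne
      have hd : 0 < V - U := by
        rcases lt_or_eq_of_le hUV with h1 | h1
        · linarith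
        · exact absurd h1.symm hne
      obtain ⟨a, ha⟩ : ∃ a : ℝ, a = (U + V - g + 1) / (2 * (V - U)) := ⟨_, rfl⟩
      have ha2 : 2 * (V - U) * a = U + V - g + 1 := by
        rw [ha]
        field_simp
      have h1 := h (a + 1) (a - 1)
      have h2 : U * (a + 1) ^ 2 + V * (a - 1) ^ 2 + g * ((a + 1) * (a - 1)) =
          (U + V + g) * a ^ 2 + (U + V - g) - 2 * (V - U) * a := by ring
      rw [h2, ← h0, ha2, zero_mul] at h1
      linarith
    have ht : √(U + V - g) ^ 2 = U + V - g := Real.sq_sqrt hT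
    refine ⟨0, 0, √(U + V - g), le_rfl, ?_, ?_, ?_⟩ <;> rw [ht] <;> linarith
  · obtain ⟨l, hl⟩ : ∃ l : ℝ, l = (V - U) / (U + V + g) := ⟨_, rfl⟩
    have hlS : l * (U + V + g) = V - U := by
      rw [hl]
      field_simp
    have hl0 : 0 ≤ l := by
      rw [hl]
      exact div_nonneg (by linarith) hS
    have h1 := h (l + 1) (l - 1)
    have h2 : U * (l + 1) ^ 2 + V * (l - 1) ^ 2 + g * ((l + 1) * (l - 1)) =
        (U + V - g) - l ^ 2 * (U + V + g) := by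
      linear_combination 2 * l * hlS
    rw [h2] at h1
    have hs : √(U + V + g) ^ 2 = U + V + g := Real.sq_sqrt hS
    have ht : √((U + V - g) - l ^ 2 * (U + V + g)) ^ 2 = (U + V - g) - l ^ 2 * (U + V + g) :=
      Real.sq_sqrt h1
    refine ⟨√(U + V + g), l, √((U + V - g) - l ^ 2 * (U + V + g)), hl0, ?_, ?_, ?_⟩
    · rw [hs, ht]
      linear_combination (-2) * hlS
    · rw [hs, ht]
      linear_combination 2 * hlS
    · rw [hs, ht]
      ring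

/-- representation for opposite edges `e ≥ f`: with `U = (1-e)/2`, `V = (1-f)/2`:
`Var P = σ² = U + V + (b-c)`, `Var Q = U + V - (b-c)`, `Cov (P,Q) = V - U = lam σ²`,
`Var η = ω² = (2+e+f)/2 - (b+c)`, `Var ζ = (2+e+f)/2 + (b+c)`, `Cov (ζ,η) = (e-f)/2 = κ ω²`; the
form at `(x, y, z, t) = (1 + s, -(1+s), 1 - s, -(1-s))`-type vectors gives
`Var (s P + t Q) ≥ 0`, `Var (s ζ + t η) ≥ 0`, hence Cauchy-Schwarz; `lam = 0` if `σ² = 0`, `κ = 0` if
`ω² = 0` -/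
theorem rep_o (e f b c : ℝ)
    (hpsd : ∀ x y z t : ℝ, 0 ≤ x ^ 2 + y ^ 2 + z ^ 2 + t ^ 2 + 2 * e * (x * y) + 2 * f * (z * t) +
      2 * b * (x * z + y * t) + 2 * c * (x * t + y * z)) (hef : f ≤ e) :
    ∃ σ lam τ ω κ υ : ℝ, 0 ≤ lam ∧ 0 ≤ κ ∧
      ((1 - lam) ^ 2 * σ ^ 2 + τ ^ 2 + (κ + 1) ^ 2 * ω ^ 2 + υ ^ 2) / 4 = 1 ∧
      ((1 + lam) ^ 2 * σ ^ 2 + τ ^ 2 + (κ - 1) ^ 2 * ω ^ 2 + υ ^ 2) / 4 = 1 ∧
      (-((1 - lam) ^ 2 * σ ^ 2) - τ ^ 2 + (κ + 1) ^ 2 * ω ^ 2 + υ ^ 2) / 4 = e ∧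
      (-((1 + lam) ^ 2 * σ ^ 2) - τ ^ 2 + (κ - 1) ^ 2 * ω ^ 2 + υ ^ 2) / 4 = f ∧
      ((1 - lam ^ 2) * σ ^ 2 - τ ^ 2 + (κ ^ 2 - 1) * ω ^ 2 + υ ^ 2) / 4 = b ∧
      (-((1 - lam ^ 2) * σ ^ 2) + τ ^ 2 + (κ ^ 2 - 1) * ω ^ 2 + υ ^ 2) / 4 = c := by
  obtain ⟨s, l, t, hl, h1, h2, h3⟩ := rpo_one ((1 - e) / 2) ((1 - f) / 2) (b - c) (by linarith)
    (fun p r => by
      have := hpsd p (-p) r (-r)
      nlinarith [this])
  obtain ⟨o, k, u, hk, g1, g2, g3⟩ := rpo_one ((1 + f) / 2) ((1 + e) / 2) (-(b + c)) (by linarith)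
    (fun p r => by
      have := hpsd r r (-p) (-p)
      nlinarith [this])
  refine ⟨s, l, t, o, k, u, hl, hk, ?_, ?_, ?_, ?_, ?_, ?_⟩
  · linear_combination (h1 + g2) / 4
  · linear_combination (h2 + g1) / 4
  · linear_combination (g2 - h1) / 4
  · linear_combination (g1 - h2) / 4
  · linear_combination (h3 - g3) / 4
  · linear_combination (-h3 - g3) / 4
-- END rpo

end SM4
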