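import Pool.Agent.SM3.Mid
import Pool.Agent.SM3.Max

/-! MP_72ffec_pr: the soft-max projection inequality for four coordinates.  Definitions. -/

open MeasureTheory ProbabilityTheory Real
open scoped BigOperators ENNReal

namespace SM4

open SMx SM3

/-- the functional -/
noncomputable def F4 {ι : Type} [Fintype ι] (β : ℝ) (A : Fin 4 → ι → ℝ) : ℝ :=
  EG A (fun x => (Lg β x + 1) ^ 2)

/-- `A_ij = E L π_i π_j` -/
noncomputable def A4 {ι : Type} [Fintype ι] (β : ℝ) (A : Fin 4 → ι → ℝ) (i j : Fin 4) : ℝ :=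
  EG A (fun x => Lg β x * (pw β x i * pw β x j))

/-- matrix for the disphenoid step: `x₀ = g + w + y`, `x₃ = g + w - y`, `x₁ = g - w + z`,
`x₂ = g - w - z`, with `y = σ z₀`, `z = lam y + τ z₁`, `w = ω z₂`, `g = υ z₃` -/
noncomputable def Bd (σ lam τ ω υ : ℝ) : Fin 4 → Fin 4 → ℝ :=
  ![![σ, 0, ω, υ], ![lam * σ, τ, -ω, υ], ![-(lam * σ), -τ, -ω, υ], ![-σ, 0, ω, υ]]

/-- matrix for the step of opposite edges: `x₀ = (ζ + η + P - Q)/2`, `x₁ = (ζ + η - P + Q)/2`,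
`x₂ = (ζ - η + P + Q)/2`, `x₃ = (ζ - η - P - Q)/2`, with `P = σ z₀`, `Q = lam P + τ z₁`,
`η = ω z₂`, `ζ = κ η + υ z₃` -/
noncomputable def Bo (σ lam τ ω κ υ : ℝ) : Fin 4 → Fin 4 → ℝ :=
  ![![(σ - lam * σ) / 2, -τ / 2, (κ * ω + ω) / 2, υ / 2],
    ![(-σ + lam * σ) / 2, τ / 2, (κ * ω + ω) / 2, υ / 2],
    ![(σ + lam * σ) / 2, τ / 2, (κ * ω - ω) / 2, υ / 2],
    ![(-σ - lam * σ) / 2, -τ / 2, (κ * ω - ω) / 2, υ / 2]]

/-- the denominator of the disphenoid step -/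
noncomputable def Dd (w y z : ℝ) : ℝ := 2 * exp w * cosh y + 2 * exp (-w) * cosh z

/-- the denominator of the step of opposite edges -/
noncomputable def Do (η P Q : ℝ) : ℝ :=
  2 * exp (η / 2) * cosh ((P - Q) / 2) + 2 * exp (-(η / 2)) * cosh ((P + Q) / 2)

/-- covariance invariant under the involution `(0 1)(2 3)` -/
def Inv {ι : Type} [Fintype ι] (A : Fin 4 → ι → ℝ) : Prop :=
  cv A 0 2 = cv A 1 3 ∧ cv A 0 3 = cv A 1 2

/-- disphenoid: opposite edges are equal -/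
def Dis {ι : Type} [Fintype ι] (A : Fin 4 → ι → ℝ) : Prop :=
  cv A 0 1 = cv A 2 3 ∧ cv A 0 2 = cv A 1 3 ∧ cv A 0 3 = cv A 1 2

end SM4
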