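import Pool.Agent.SM4.Bas

/-! MP_72ffec_pr, four coordinates: the two monotonicity steps and the paths. -/

open MeasureTheory ProbabilityTheory Real
open scoped BigOperators ENNReal

namespace SM4

open SMx SM3

-- BEGIN crd
/-- the odd function in the disphenoid step -/
private noncomputable def crd_N (w y s : ℝ) : ℝ :=
  4 * log (Dd w y s) * sinh s / Dd w y s ^ 2

private theorem crd_N_neg (w y s : ℝ) : crd_N w y (-s) = -crd_N w y s := by
  unfold crd_N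
  rw [Dd_negz, sinh_neg]
  ring

private theorem crd_N_nonneg (w y s : ℝ) (hs : 0 ≤ s) : 0 ≤ crd_N w y s := by
  unfold crd_N
  have h := Dd_ge w y s
  exact div_nonneg (mul_nonneg (mul_nonneg (by norm_num) (log_nonneg (by linarith)))
    (sinh_nonneg_iff.2 hs)) (sq_nonneg _)

private theorem crd_q (σ lam τ ω υ : ℝ) (z : Fin 4 → ℝ) :
    (pw 1 (lin (Bd σ lam τ ω υ) z) 0 - pw 1 (lin (Bd σ lam τ ω υ) z) 3) *
      (pw 1 (lin (Bd σ lam τ ω υ) z) 1 - pw 1 (lin (Bd σ lam τ ω υ) z) 2) =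
      4 * sinh (σ * z 0) * sinh (lam * (σ * z 0) + τ * z 1) /
        Dd (ω * z 2) (σ * z 0) (lam * (σ * z 0) + τ * z 1) ^ 2 := by
  rw [lin_Bd]
  exact pt_qd (υ * z 3) (ω * z 2) (σ * z 0) (lam * (σ * z 0) + τ * z 1)

private theorem crd_L (σ lam τ ω υ : ℝ) (z : Fin 4 → ℝ) :
    Lg 1 (lin (Bd σ lam τ ω υ) z) =
      υ * z 3 + log (Dd (ω * z 2) (σ * z 0) (lam * (σ * z 0) + τ * z 1)) := by
  rw [lin_Bd]
  exact pt_Ld (υ * z 3) (ω * z 2) (σ * z 0) (lam * (σ * z 0) + τ * z 1)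

/-- disphenoid step at `Bd`: by `lin_Bd`, `pt_Ld`, `pt_qd` the integrand is
`(υ z₃ + log D) * q`, `q = 4 sinh y sinh z / D²`, `D = Dd w y z ≥ 4`; the first part integrates to
zero (`orth4` with `k = 3`); in the second integrate `z₁` first (`fub4` with `k = 1`) and use
`SM3.odd_shift` with `t = sinh y`, `a = lam y`, `N(z) = 4 log D sinh z / D²`.  Growth: the whole
integrand and `q` are `Gr` compositions with `lin (Bd ..)` (`Gr.comp_lin`, `Gr.Lg`, `Gr.pw`). -/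
theorem core_d (σ lam τ ω υ : ℝ) (h0 : 0 ≤ lam) :
    0 ≤ EG (Bd σ lam τ ω υ) (fun x => Lg 1 x * ((pw 1 x 0 - pw 1 x 3) * (pw 1 x 1 - pw 1 x 2))) := by
  obtain ⟨Q, hQ⟩ : ∃ Q : (Fin 4 → ℝ) → ℝ, ∀ z, Q z =
      (pw 1 (lin (Bd σ lam τ ω υ) z) 0 - pw 1 (lin (Bd σ lam τ ω υ) z) 3) *
      (pw 1 (lin (Bd σ lam τ ω υ) z) 1 - pw 1 (lin (Bd σ lam τ ω υ) z) 2) := ⟨_, fun z => rfl⟩
  have gq : Gr (fun x : Fin 4 → ℝ => (pw 1 x 0 - pw 1 x 3) * (pw 1 x 1 - pw 1 x 2)) :=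
    ((Gr.pw 1 0).sub (Gr.pw 1 3)).mul ((Gr.pw 1 1).sub (Gr.pw 1 2))
  have gQ : Gr Q := by
    have e : Q = fun z => (fun x : Fin 4 → ℝ => (pw 1 x 0 - pw 1 x 3) * (pw 1 x 1 - pw 1 x 2))
        (lin (Bd σ lam τ ω υ) z) := funext hQ
    rw [e]
    exact gq.comp_lin _
  have hQ2 : ∀ z, Q z = 4 * sinh (σ * z 0) * sinh (lam * (σ * z 0) + τ * z 1) /
      Dd (ω * z 2) (σ * z 0) (lam * (σ * z 0) + τ * z 1) ^ 2 := fun z => by
    rw [hQ, crd_q]
  have gL : Gr (fun z => Lg 1 (lin (Bd σ lam τ ω υ) z) * Q z) :=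
    ((Gr.Lg 1).comp_lin _).mul gQ
  have gO : Gr (fun z : Fin 4 → ℝ => υ * (z 3 * Q z)) := ((Gr.coord 3).mul gQ).const_mul _
  have gH : Gr (fun z => Lg 1 (lin (Bd σ lam τ ω υ) z) * Q z - υ * (z 3 * Q z)) := gL.sub gO
  have hO : ∫ z, z 3 * Q z ∂(γ (Fin 4)) = 0 := by
    refine orth4 gQ 3 fun z t => ?_
    rw [hQ2, hQ2, Function.update_of_ne (by decide), Function.update_of_ne (by decide),
      Function.update_of_ne (by decide)]
  have e1 : EG (Bd σ lam τ ω υ)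
      (fun x => Lg 1 x * ((pw 1 x 0 - pw 1 x 3) * (pw 1 x 1 - pw 1 x 2))) =
      ∫ z, (Lg 1 (lin (Bd σ lam τ ω υ) z) * Q z - υ * (z 3 * Q z)) ∂(γ (Fin 4)) := by
    rw [integral_sub gL.int gO.int, integral_const_mul, hO, mul_zero, sub_zero]
    unfold EG
    refine integral_congr_ae (Filter.Eventually.of_forall fun z => ?_)
    show Lg 1 (lin (Bd σ lam τ ω υ) z) * _ = Lg 1 (lin (Bd σ lam τ ω υ) z) * Q z
    rw [hQ z]
  rw [e1, fub4 gH 1]
  refine integral_nonneg fun z => ?_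
  show 0 ≤ ∫ t, (Lg 1 (lin (Bd σ lam τ ω υ) (Function.update z 1 t)) * Q (Function.update z 1 t) -
    υ * (Function.update z 1 t 3 * Q (Function.update z 1 t))) ∂(gaussianReal 0 1)
  have e2 : (fun t => Lg 1 (lin (Bd σ lam τ ω υ) (Function.update z 1 t)) *
      Q (Function.update z 1 t) - υ * (Function.update z 1 t 3 * Q (Function.update z 1 t))) =
      fun t => sinh (σ * z 0) * crd_N (ω * z 2) (σ * z 0) (lam * (σ * z 0) + τ * t) := by
    funext t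
    have u0 : Function.update z 1 t 0 = z 0 := Function.update_of_ne (by decide) _ _
    have u2 : Function.update z 1 t 2 = z 2 := Function.update_of_ne (by decide) _ _
    have u3 : Function.update z 1 t 3 = z 3 := Function.update_of_ne (by decide) _ _
    have u1 : Function.update z 1 t 1 = t := Function.update_self _ _ _
    rw [crd_L, hQ2, u0, u1, u2, u3]
    unfold crd_N
    ring
  rw [e2, integral_const_mul]
  refine odd_shift (crd_N (ω * z 2) (σ * z 0)) (crd_N_neg _ _) (fun s hs => crd_N_nonneg _ _ s hs)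
    (sinh (σ * z 0)) (lam * (σ * z 0)) τ ?_
  rcases le_total 0 (σ * z 0) with h | h
  · exact Or.inl ⟨mul_nonneg h0 h, sinh_nonneg_iff.2 h⟩
  · exact Or.inr ⟨mul_nonpos_of_nonneg_of_nonpos h0 h, sinh_nonpos_iff.2 h⟩
-- END crd

-- BEGIN nno
private theorem nno_g {a b : ℝ} (ha : 4 ≤ a) (hab : a ≤ b) :
    0 ≤ log a / a ^ 2 - log b / b ^ 2 := sub_nonneg.2 (g_anti ha hab)

private theorem nno_g' {a b : ℝ} (ha : 4 ≤ a) (hab : a ≤ b) :
    log b / b ^ 2 - log a / a ^ 2 ≤ 0 := sub_nonpos.2 (g_anti ha hab)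

private theorem nno_pp {η P Q : ℝ} (h1 : η ≤ 0) (h2 : 0 ≤ P) (h3 : 0 ≤ Q) :
    Do η P (-Q) ≤ Do η P Q := by
  have h := Do_le (η := -η) (neg_nonneg.2 h1) h2 h3
  rwa [Do_neg, Do_neg, neg_neg] at h

private theorem nno_np {η P Q : ℝ} (h1 : 0 ≤ η) (h2 : P ≤ 0) (h3 : 0 ≤ Q) :
    Do η P (-Q) ≤ Do η P Q := by
  have h := Do_le (η := η) h1 (neg_nonneg.2 h2) h3
  have h4 := Do_PQ η P (-Q)
  rw [neg_neg] at h4
  rwa [h4, Do_PQ] at h

private theorem nno_nn {η P Q : ℝ} (h1 : η ≤ 0) (h2 : P ≤ 0) (h3 : 0 ≤ Q) :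
    Do η P Q ≤ Do η P (-Q) := by
  have h := nno_pp h1 (neg_nonneg.2 h2) h3
  have h4 := Do_PQ η P (-Q)
  rw [neg_neg] at h4
  rwa [h4, Do_PQ] at h

/-- sign of the odd function of the step of opposite edges: for `Q ≥ 0` the product
`P * (sinh η * (g(Do η P Q) - g(Do η P (-Q))))` is nonnegative, `g t = log t / t²` -/
theorem N_sign (η P Q : ℝ) (hQ : 0 ≤ Q) :
    (0 ≤ P → 0 ≤ sinh η * (log (Do η P Q) / Do η P Q ^ 2 - log (Do η P (-Q)) / Do η P (-Q) ^ 2)) ∧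
    (P ≤ 0 → sinh η * (log (Do η P Q) / Do η P Q ^ 2 - log (Do η P (-Q)) / Do η P (-Q) ^ 2) ≤ 0) := by
  refine ⟨fun hP => ?_, fun hP => ?_⟩ <;> rcases le_total 0 η with h | h
  · exact mul_nonneg (sinh_nonneg_iff.2 h) (nno_g (Do_ge _ _ _) (Do_le h hP hQ))
  · exact mul_nonneg_of_nonpos_of_nonpos (sinh_nonpos_iff.2 h)
      (nno_g' (Do_ge _ _ _) (nno_pp h hP hQ))
  · exact mul_nonpos_of_nonneg_of_nonpos (sinh_nonneg_iff.2 h)
      (nno_g' (Do_ge _ _ _) (nno_np h hP hQ))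
  · exact mul_nonpos_of_nonpos_of_nonneg (sinh_nonpos_iff.2 h)
      (nno_g (Do_ge _ _ _) (nno_nn h hP hQ))
-- END nno

-- BEGIN cro
private theorem cro_pt (σ lam τ ω κ υ : ℝ) (z : Fin 4 → ℝ) :
    Lg 1 (lin (Bo σ lam τ ω κ υ) z) * (pw 1 (lin (Bo σ lam τ ω κ υ) z) 0 *
      pw 1 (lin (Bo σ lam τ ω κ υ) z) 1 - pw 1 (lin (Bo σ lam τ ω κ υ) z) 2 *
      pw 1 (lin (Bo σ lam τ ω κ υ) z) 3) =
    ((κ * (ω * z 2) + υ * z 3) / 2 + log (Do (ω * z 2) (σ * z 0) (lam * (σ * z 0) + τ * z 1))) *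
      (2 * sinh (ω * z 2) / Do (ω * z 2) (σ * z 0) (lam * (σ * z 0) + τ * z 1) ^ 2) := by
  rw [lin_Bo, pt_Lo, pt_qo]

private theorem cro_q (σ lam τ ω : ℝ) : Gr (fun z : Fin 4 → ℝ =>
    2 * sinh (ω * z 2) / Do (ω * z 2) (σ * z 0) (lam * (σ * z 0) + τ * z 1) ^ 2) := by
  have e : (fun z : Fin 4 → ℝ =>
      2 * sinh (ω * z 2) / Do (ω * z 2) (σ * z 0) (lam * (σ * z 0) + τ * z 1) ^ 2) =
      fun z => (fun x : Fin 4 → ℝ => pw 1 x 0 * pw 1 x 1 - pw 1 x 2 * pw 1 x 3)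
        (lin (Bo σ lam τ ω 0 0) z) := by
    funext z
    show _ = pw 1 (lin (Bo σ lam τ ω 0 0) z) 0 * pw 1 (lin (Bo σ lam τ ω 0 0) z) 1 -
      pw 1 (lin (Bo σ lam τ ω 0 0) z) 2 * pw 1 (lin (Bo σ lam τ ω 0 0) z) 3
    rw [lin_Bo, pt_qo]
  rw [e]
  exact (((Gr.pw 1 0).mul (Gr.pw 1 1)).sub ((Gr.pw 1 2).mul (Gr.pw 1 3))).comp_lin _

private theorem cro_lq (σ lam τ ω : ℝ) : Gr (fun z : Fin 4 → ℝ =>
    log (Do (ω * z 2) (σ * z 0) (lam * (σ * z 0) + τ * z 1)) *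
    (2 * sinh (ω * z 2) / Do (ω * z 2) (σ * z 0) (lam * (σ * z 0) + τ * z 1) ^ 2)) := by
  have e : (fun z : Fin 4 → ℝ => log (Do (ω * z 2) (σ * z 0) (lam * (σ * z 0) + τ * z 1)) *
      (2 * sinh (ω * z 2) / Do (ω * z 2) (σ * z 0) (lam * (σ * z 0) + τ * z 1) ^ 2)) =
      fun z => (fun x : Fin 4 → ℝ => Lg 1 x * (pw 1 x 0 * pw 1 x 1 - pw 1 x 2 * pw 1 x 3))
        (lin (Bo σ lam τ ω 0 0) z) := by
    funext z
    show _ = Lg 1 (lin (Bo σ lam τ ω 0 0) z) * (pw 1 (lin (Bo σ lam τ ω 0 0) z) 0 *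
      pw 1 (lin (Bo σ lam τ ω 0 0) z) 1 -
      pw 1 (lin (Bo σ lam τ ω 0 0) z) 2 * pw 1 (lin (Bo σ lam τ ω 0 0) z) 3)
    rw [cro_pt]
    ring
  rw [e]
  exact ((Gr.Lg 1).mul (((Gr.pw 1 0).mul (Gr.pw 1 1)).sub ((Gr.pw 1 2).mul (Gr.pw 1 3)))).comp_lin _

private theorem cro_flip {F : (Fin 4 → ℝ) → ℝ} (hF : Gr F) (k : Fin 4) :
    Gr (fun z => F (Function.update z k (-z k))) := by
  obtain ⟨hc, C, K, hC, hK, hb⟩ := hF
  refine ⟨hc.comp (continuous_id.update k (continuous_apply k).neg), C, K, hC, hK, fun z => ?_⟩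
  have e : ∑ i, |Function.update z k (-z k) i| = ∑ i, |z i| := by
    apply Finset.sum_congr rfl
    intro i _
    by_cases hi : i = k
    · subst hi
      rw [Function.update_self, abs_neg]
    · rw [Function.update_of_ne hi]
  have h := hb (Function.update z k (-z k))
  rw [e] at h
  exact h

private theorem cro_inner (η P lam τ : ℝ) (h0 : 0 ≤ lam) :
    0 ≤ ∫ t, sinh η * (log (Do η P (lam * P + τ * t)) / Do η P (lam * P + τ * t) ^ 2 -
      log (Do η P (-(lam * P + τ * t))) / Do η P (-(lam * P + τ * t)) ^ 2) ∂(gaussianReal 0 1) := by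
  set N : ℝ → ℝ := fun Q => sinh η * (log (Do η P Q) / Do η P Q ^ 2 -
    log (Do η P (-Q)) / Do η P (-Q) ^ 2) with hN
  have hodd : ∀ x, N (-x) = -N x := by
    intro x
    simp only [hN, neg_neg]
    ring
  rcases le_total 0 P with hP | hP
  · have h := odd_shift N hodd (fun x hx => (N_sign η P x hx).1 hP) 1 (lam * P) τ
      (Or.inl ⟨mul_nonneg h0 hP, zero_le_one⟩)
    rw [one_mul] at h
    exact h
  · have h := odd_shift (fun x => -N x) (fun x => by rw [hodd])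
      (fun x hx => neg_nonneg.2 ((N_sign η P x hx).2 hP)) (-1) (lam * P) τ
      (Or.inr ⟨mul_nonpos_of_nonneg_of_nonpos h0 hP, by norm_num⟩)
    rw [integral_neg] at h
    have h2 : 0 ≤ ∫ z, N (lam * P + τ * z) ∂(gaussianReal 0 1) := by linarith
    exact h2

/-- step of opposite edges at `Bo`: by `lin_Bo`, `pt_Lo`, `pt_qo` the integrand is
`((κ η + υ z₃)/2 + log D) * q`, `q = 2 sinh η / D²`, `D = Do η P Q`; `υ z₃` integrates to zero
(`orth4`, `k = 3`), `κ η q ≥ 0` pointwise; `2 E[log D q] = E[log D q + (the same at -η)]` (`int_flip`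
with `k = 2`), by `Do_neg` the sum is `2 sinh η (g(Do η P Q) - g(Do η P (-Q)))`; integrate `z₁` first
(`fub4`, `k = 1`) and use `N_sign`, `SM3.odd_shift` (`t = 1` if `P ≥ 0`, `t = -1` and `-N` if
`P ≤ 0`, `a = lam P`). -/
theorem core_o (σ lam τ ω κ υ : ℝ) (h0 : 0 ≤ lam) (h1 : 0 ≤ κ) :
    0 ≤ EG (Bo σ lam τ ω κ υ) (fun x => Lg 1 x * (pw 1 x 0 * pw 1 x 1 - pw 1 x 2 * pw 1 x 3)) := by
  have gq := cro_q σ lam τ ω
  have gl := cro_lq σ lam τ ω
  have g2 : Gr (fun z : Fin 4 → ℝ => κ * ω / 2 * (z 2 *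
      (2 * sinh (ω * z 2) / Do (ω * z 2) (σ * z 0) (lam * (σ * z 0) + τ * z 1) ^ 2))) :=
    ((Gr.coord 2).mul gq).const_mul _
  have g3 : Gr (fun z : Fin 4 → ℝ => υ / 2 * (z 3 *
      (2 * sinh (ω * z 2) / Do (ω * z 2) (σ * z 0) (lam * (σ * z 0) + τ * z 1) ^ 2))) :=
    ((Gr.coord 3).mul gq).const_mul _
  have e1 : EG (Bo σ lam τ ω κ υ)
      (fun x => Lg 1 x * (pw 1 x 0 * pw 1 x 1 - pw 1 x 2 * pw 1 x 3)) =
      ∫ z, κ * ω / 2 * (z 2 * (2 * sinh (ω * z 2) /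
        Do (ω * z 2) (σ * z 0) (lam * (σ * z 0) + τ * z 1) ^ 2)) ∂(γ (Fin 4)) +
      (∫ z, υ / 2 * (z 3 * (2 * sinh (ω * z 2) /
        Do (ω * z 2) (σ * z 0) (lam * (σ * z 0) + τ * z 1) ^ 2)) ∂(γ (Fin 4)) +
      ∫ z, log (Do (ω * z 2) (σ * z 0) (lam * (σ * z 0) + τ * z 1)) *
        (2 * sinh (ω * z 2) / Do (ω * z 2) (σ * z 0) (lam * (σ * z 0) + τ * z 1) ^ 2)
        ∂(γ (Fin 4))) := by
    rw [← integral_add g3.int gl.int, ← integral_add g2.int (g3.add gl).int]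
    unfold EG
    refine integral_congr_ae (Filter.Eventually.of_forall fun z => ?_)
    show Lg 1 (lin (Bo σ lam τ ω κ υ) z) * (pw 1 (lin (Bo σ lam τ ω κ υ) z) 0 *
      pw 1 (lin (Bo σ lam τ ω κ υ) z) 1 - pw 1 (lin (Bo σ lam τ ω κ υ) z) 2 *
      pw 1 (lin (Bo σ lam τ ω κ υ) z) 3) = _
    rw [cro_pt]
    ring
  have e3 : ∫ z, υ / 2 * (z 3 * (2 * sinh (ω * z 2) /
      Do (ω * z 2) (σ * z 0) (lam * (σ * z 0) + τ * z 1) ^ 2)) ∂(γ (Fin 4)) = 0 := by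
    rw [integral_const_mul, orth4 gq 3, mul_zero]
    intro z t
    have u0 : Function.update z 3 t 0 = z 0 := by rw [Function.update_of_ne (by decide)]
    have u1 : Function.update z 3 t 1 = z 1 := by rw [Function.update_of_ne (by decide)]
    have u2 : Function.update z 3 t 2 = z 2 := by rw [Function.update_of_ne (by decide)]
    rw [u0, u1, u2]
  have p2 : 0 ≤ ∫ z, κ * ω / 2 * (z 2 * (2 * sinh (ω * z 2) /
      Do (ω * z 2) (σ * z 0) (lam * (σ * z 0) + τ * z 1) ^ 2)) ∂(γ (Fin 4)) := by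
    apply integral_nonneg
    intro z
    show 0 ≤ κ * ω / 2 * (z 2 * (2 * sinh (ω * z 2) /
      Do (ω * z 2) (σ * z 0) (lam * (σ * z 0) + τ * z 1) ^ 2))
    have h2 : 0 ≤ ω * z 2 * sinh (ω * z 2) := by
      rcases le_total 0 (ω * z 2) with h | h
      · exact mul_nonneg h (sinh_nonneg_iff.2 h)
      · exact mul_nonneg_of_nonpos_of_nonpos h (sinh_nonpos_iff.2 h)
    have h3 : κ * ω / 2 * (z 2 * (2 * sinh (ω * z 2) /
        Do (ω * z 2) (σ * z 0) (lam * (σ * z 0) + τ * z 1) ^ 2)) =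
        κ * (ω * z 2 * sinh (ω * z 2) / Do (ω * z 2) (σ * z 0) (lam * (σ * z 0) + τ * z 1) ^ 2) := by
      ring
    rw [h3]
    exact mul_nonneg h1 (div_nonneg h2 (sq_nonneg _))
  have p3 : 0 ≤ ∫ z, log (Do (ω * z 2) (σ * z 0) (lam * (σ * z 0) + τ * z 1)) *
      (2 * sinh (ω * z 2) / Do (ω * z 2) (σ * z 0) (lam * (σ * z 0) + τ * z 1) ^ 2)
      ∂(γ (Fin 4)) := by
    have gf := cro_flip gl 2
    have hf := int_flip gl 2
    have es : ∀ z : Fin 4 → ℝ, log (Do (ω * z 2) (σ * z 0) (lam * (σ * z 0) + τ * z 1)) *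
        (2 * sinh (ω * z 2) / Do (ω * z 2) (σ * z 0) (lam * (σ * z 0) + τ * z 1) ^ 2) +
        log (Do (ω * Function.update z 2 (-z 2) 2) (σ * Function.update z 2 (-z 2) 0)
          (lam * (σ * Function.update z 2 (-z 2) 0) + τ * Function.update z 2 (-z 2) 1)) *
        (2 * sinh (ω * Function.update z 2 (-z 2) 2) /
          Do (ω * Function.update z 2 (-z 2) 2) (σ * Function.update z 2 (-z 2) 0)
          (lam * (σ * Function.update z 2 (-z 2) 0) + τ * Function.update z 2 (-z 2) 1) ^ 2) =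
        2 * (sinh (ω * z 2) * (log (Do (ω * z 2) (σ * z 0) (lam * (σ * z 0) + τ * z 1)) /
          Do (ω * z 2) (σ * z 0) (lam * (σ * z 0) + τ * z 1) ^ 2 -
          log (Do (ω * z 2) (σ * z 0) (-(lam * (σ * z 0) + τ * z 1))) /
          Do (ω * z 2) (σ * z 0) (-(lam * (σ * z 0) + τ * z 1)) ^ 2)) := by
      intro z
      have u0 : Function.update z 2 (-z 2) 0 = z 0 := by rw [Function.update_of_ne (by decide)]
      have u1 : Function.update z 2 (-z 2) 1 = z 1 := by rw [Function.update_of_ne (by decide)]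
      have u2 : Function.update z 2 (-z 2) 2 = -z 2 := Function.update_self _ _ _
      rw [u0, u1, u2, mul_neg, Do_neg, sinh_neg]
      ring
    have gs := gl.add gf
    have h2 : 2 * ∫ z, log (Do (ω * z 2) (σ * z 0) (lam * (σ * z 0) + τ * z 1)) *
        (2 * sinh (ω * z 2) / Do (ω * z 2) (σ * z 0) (lam * (σ * z 0) + τ * z 1) ^ 2)
        ∂(γ (Fin 4)) = ∫ z, 2 * (sinh (ω * z 2) *
          (log (Do (ω * z 2) (σ * z 0) (lam * (σ * z 0) + τ * z 1)) /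
          Do (ω * z 2) (σ * z 0) (lam * (σ * z 0) + τ * z 1) ^ 2 -
          log (Do (ω * z 2) (σ * z 0) (-(lam * (σ * z 0) + τ * z 1))) /
          Do (ω * z 2) (σ * z 0) (-(lam * (σ * z 0) + τ * z 1)) ^ 2)) ∂(γ (Fin 4)) := by
      rw [← integral_congr_ae (Filter.Eventually.of_forall es), integral_add gl.int gf.int, hf]
      ring
    have gR : Gr (fun z : Fin 4 → ℝ => 2 * (sinh (ω * z 2) *
          (log (Do (ω * z 2) (σ * z 0) (lam * (σ * z 0) + τ * z 1)) /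
          Do (ω * z 2) (σ * z 0) (lam * (σ * z 0) + τ * z 1) ^ 2 -
          log (Do (ω * z 2) (σ * z 0) (-(lam * (σ * z 0) + τ * z 1))) /
          Do (ω * z 2) (σ * z 0) (-(lam * (σ * z 0) + τ * z 1)) ^ 2))) := by
      rw [← funext es]
      exact gs
    have h3 : 0 ≤ ∫ z, 2 * (sinh (ω * z 2) *
          (log (Do (ω * z 2) (σ * z 0) (lam * (σ * z 0) + τ * z 1)) /
          Do (ω * z 2) (σ * z 0) (lam * (σ * z 0) + τ * z 1) ^ 2 -
          log (Do (ω * z 2) (σ * z 0) (-(lam * (σ * z 0) + τ * z 1))) /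
          Do (ω * z 2) (σ * z 0) (-(lam * (σ * z 0) + τ * z 1)) ^ 2)) ∂(γ (Fin 4)) := by
      rw [fub4 gR 1]
      apply integral_nonneg
      intro z
      have u0 : ∀ t, Function.update z 1 t 0 = z 0 := fun t => by
        rw [Function.update_of_ne (by decide)]
      have u1 : ∀ t, Function.update z 1 t 1 = t := fun t => Function.update_self _ _ _
      have u2 : ∀ t, Function.update z 1 t 2 = z 2 := fun t => by
        rw [Function.update_of_ne (by decide)]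
      simp only [u0, u1, u2]
      show 0 ≤ ∫ t, 2 * (sinh (ω * z 2) *
          (log (Do (ω * z 2) (σ * z 0) (lam * (σ * z 0) + τ * t)) /
          Do (ω * z 2) (σ * z 0) (lam * (σ * z 0) + τ * t) ^ 2 -
          log (Do (ω * z 2) (σ * z 0) (-(lam * (σ * z 0) + τ * t))) /
          Do (ω * z 2) (σ * z 0) (-(lam * (σ * z 0) + τ * t)) ^ 2)) ∂(gaussianReal 0 1)
      rw [integral_const_mul]
      exact mul_nonneg (by norm_num) (cro_inner (ω * z 2) (σ * z 0) lam τ h0)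
    linarith
  rw [e1, e3]
  linarith
-- END cro

-- BEGIN mod
private theorem mod_gr (β : ℝ) (i j : Fin 4) :
    Gr (fun x : Fin 4 → ℝ => Lg β x * (pw β x i * pw β x j)) :=
  (Gr.Lg β).mul ((Gr.pw β i).mul (Gr.pw β j))

private theorem mod_scale (σ lam τ ω υ β : ℝ) :
    (fun i k => β * Bd σ lam τ ω υ i k) = Bd (β * σ) lam (β * τ) (β * ω) (β * υ) := by
  funext i k
  fin_cases i <;> fin_cases k <;> simp [Bd] <;> ring

private theorem mod_congr {ι : Type} [Fintype ι] (A : Fin 4 → ι → ℝ) (β σ lam τ ω υ : ℝ)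
    (h : ∀ i j, cv A i j = cv (Bd σ lam τ ω υ) i j) (i j : Fin 4) :
    A4 β A i j = A4 1 (Bd (β * σ) lam (β * τ) (β * ω) (β * υ)) i j := by
  have h1 : A4 β A i j = A4 β (Bd σ lam τ ω υ) i j :=
    EG_congr A (Bd σ lam τ ω υ) h (mod_gr β i j)
  rw [h1, A4_scale, mod_scale]

private theorem mod_psd {ι : Type} [Fintype ι] (A : Fin 4 → ι → ℝ) (hA : ∀ i, cv A i i = 1)
    (hD : Dis A) (x y z t : ℝ) :
    0 ≤ x ^ 2 + y ^ 2 + z ^ 2 + t ^ 2 + 2 * cv A 0 1 * (x * y + z * t) +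
      2 * cv A 0 2 * (x * z + y * t) + 2 * cv A 0 3 * (x * t + y * z) := by
  have h2 := gram4 A ![x, y, z, t]
  obtain ⟨ha, hb, hc⟩ := hD
  have e0 : (![x, y, z, t] : Fin 4 → ℝ) 0 = x := rfl
  have e1 : (![x, y, z, t] : Fin 4 → ℝ) 1 = y := rfl
  have e2 : (![x, y, z, t] : Fin 4 → ℝ) 2 = z := rfl
  have e3 : (![x, y, z, t] : Fin 4 → ℝ) 3 = t := rfl
  simp only [Fin.sum_univ_four, e0, e1, e2, e3] at h2
  rw [hA 0, hA 1, hA 2, hA 3, cv_symm4 A 1 0, cv_symm4 A 2 0, cv_symm4 A 2 1, cv_symm4 A 3 0,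
    cv_symm4 A 3 1, cv_symm4 A 3 2, ← ha, ← hb, ← hc] at h2
  linarith

/-- disphenoids: `a ≥ b` gives `A₀₁ + A₂₃ ≥ A₀₂ + A₁₃` (from `A4_scale`, `gram4`, `rep_d`, `cv_Bd`,
`EG_congr`, `core_d` with the parameters `β σ, lam, β τ, β ω, β υ`, as in `SM3.mono012`);
`(p₀ - p₃)(p₁ - p₂) = p₀p₁ + p₂p₃ - p₀p₂ - p₁p₃` -/
theorem mono_d {ι : Type} [Fintype ι] (A : Fin 4 → ι → ℝ) (hA : ∀ i, cv A i i = 1) (hD : Dis A)
    (β : ℝ) (h : cv A 0 2 ≤ cv A 0 1) : A4 β A 0 2 + A4 β A 1 3 ≤ A4 β A 0 1 + A4 β A 2 3 := by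
  have hpsd := mod_psd A hA hD
  obtain ⟨σ, lam, τ, ω, υ, hl, e0, e1, ea, eb, ec, ec'⟩ :=
    rep_d (cv A 0 1) (cv A 0 2) (cv A 0 3) hpsd h
  obtain ⟨cs, c00, c11, c22, c33, c01, c23, c02, c13, c03, c12⟩ := cv_Bd σ lam τ ω υ
  obtain ⟨ha, hb, hc⟩ := hD
  have k00 : cv A 0 0 = cv (Bd σ lam τ ω υ) 0 0 := by rw [hA 0, c00, e0]
  have k11 : cv A 1 1 = cv (Bd σ lam τ ω υ) 1 1 := by rw [hA 1, c11, e1]
  have k22 : cv A 2 2 = cv (Bd σ lam τ ω υ) 2 2 := by rw [hA 2, c22, e1]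
  have k33 : cv A 3 3 = cv (Bd σ lam τ ω υ) 3 3 := by rw [hA 3, c33, e0]
  have k01 : cv A 0 1 = cv (Bd σ lam τ ω υ) 0 1 := by rw [c01, ea]
  have k23 : cv A 2 3 = cv (Bd σ lam τ ω υ) 2 3 := by rw [c23, ea, ha]
  have k02 : cv A 0 2 = cv (Bd σ lam τ ω υ) 0 2 := by rw [c02, eb]
  have k13 : cv A 1 3 = cv (Bd σ lam τ ω υ) 1 3 := by rw [c13, eb, hb]
  have k03 : cv A 0 3 = cv (Bd σ lam τ ω υ) 0 3 := by rw [c03, ec]
  have k12 : cv A 1 2 = cv (Bd σ lam τ ω υ) 1 2 := by rw [c12, ec', hc]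
  have hcv : ∀ i j, cv A i j = cv (Bd σ lam τ ω υ) i j := by
    intro i j
    fin_cases i <;> fin_cases j
    · exact k00
    · exact k01
    · exact k02
    · exact k03
    · exact (cv_symm4 A 1 0).trans (k01.trans (cs 0 1))
    · exact k11
    · exact k12
    · exact k13
    · exact (cv_symm4 A 2 0).trans (k02.trans (cs 0 2))
    · exact (cv_symm4 A 2 1).trans (k12.trans (cs 1 2))
    · exact k22
    · exact k23
    · exact (cv_symm4 A 3 0).trans (k03.trans (cs 0 3))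
    · exact (cv_symm4 A 3 1).trans (k13.trans (cs 1 3))
    · exact (cv_symm4 A 3 2).trans (k23.trans (cs 2 3))
    · exact k33
  rw [mod_congr A β σ lam τ ω υ hcv 0 2, mod_congr A β σ lam τ ω υ hcv 1 3,
    mod_congr A β σ lam τ ω υ hcv 0 1, mod_congr A β σ lam τ ω υ hcv 2 3]
  have hm := core_d (β * σ) lam (β * τ) (β * ω) (β * υ) hl
  have he : (fun x : Fin 4 → ℝ => Lg 1 x * ((pw 1 x 0 - pw 1 x 3) * (pw 1 x 1 - pw 1 x 2))) =
      fun x : Fin 4 → ℝ => (Lg 1 x * (pw 1 x 0 * pw 1 x 1) + Lg 1 x * (pw 1 x 2 * pw 1 x 3)) -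
        (Lg 1 x * (pw 1 x 0 * pw 1 x 2) + Lg 1 x * (pw 1 x 1 * pw 1 x 3)) := by
    funext x
    ring
  have hs := EG_sub ((mod_gr 1 0 1).add (mod_gr 1 2 3)) ((mod_gr 1 0 2).add (mod_gr 1 1 3))
    (Bd (β * σ) lam (β * τ) (β * ω) (β * υ))
  have h1 := EG_add (mod_gr 1 0 1) (mod_gr 1 2 3) (Bd (β * σ) lam (β * τ) (β * ω) (β * υ))
  have h2 := EG_add (mod_gr 1 0 2) (mod_gr 1 1 3) (Bd (β * σ) lam (β * τ) (β * ω) (β * υ))
  rw [he, hs, h1, h2] at hm
  unfold A4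
  linarith
-- END mod

-- BEGIN mda
private theorem mda_perm {ι : Type} [Fintype ι] (A : Fin 4 → ι → ℝ) (hA : ∀ i, cv A i i = 1)
    (β : ℝ) (σ : Equiv.Perm (Fin 4)) (hD : Dis (fun i => A (σ i)))
    (h : cv A (σ 0) (σ 2) ≤ cv A (σ 0) (σ 1)) :
    A4 β A (σ 0) (σ 2) + A4 β A (σ 1) (σ 3) ≤ A4 β A (σ 0) (σ 1) + A4 β A (σ 2) (σ 3) := by
  have h1 := mono_d (fun i => A (σ i)) (fun i => hA (σ i)) hD β h
  rw [A4_perm, A4_perm, A4_perm, A4_perm] at h1
  exact h1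

private theorem mda_four {ι : Type} [Fintype ι] (A : Fin 4 → ι → ℝ) (hA : ∀ i, cv A i i = 1)
    (β : ℝ) (σ : Equiv.Perm (Fin 4)) (p q r s : Fin 4) (e0 : σ 0 = p) (e1 : σ 1 = q)
    (e2 : σ 2 = r) (e3 : σ 3 = s)
    (d1 : cv A p q = cv A r s) (d2 : cv A p r = cv A q s) (d3 : cv A p s = cv A q r)
    (h : cv A p r ≤ cv A p q) :
    A4 β A p r + A4 β A q s ≤ A4 β A p q + A4 β A r s := by
  subst e0 e1 e2 e3
  exact mda_perm A hA β σ ⟨d1, d2, d3⟩ h

theorem mono_all {ι : Type} [Fintype ι] (A : Fin 4 → ι → ℝ) (hA : ∀ i, cv A i i = 1) (hD : Dis A)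
    (β : ℝ) :
    0 ≤ (cv A 0 1 - cv A 0 2) * ((A4 β A 0 1 + A4 β A 2 3) - (A4 β A 0 2 + A4 β A 1 3)) ∧
    0 ≤ (cv A 0 1 - cv A 0 3) * ((A4 β A 0 1 + A4 β A 2 3) - (A4 β A 0 3 + A4 β A 1 2)) ∧
    0 ≤ (cv A 0 2 - cv A 0 3) * ((A4 β A 0 2 + A4 β A 1 3) - (A4 β A 0 3 + A4 β A 1 2)) := by
  obtain ⟨ha, hb, hc⟩ := hD
  have s10 := cv_symm4 A 1 0
  have s20 := cv_symm4 A 2 0
  have s30 := cv_symm4 A 3 0
  have s21 := cv_symm4 A 2 1
  have s31 := cv_symm4 A 3 1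
  have s32 := cv_symm4 A 3 2
  have t21 := A4_symm β A 2 1
  have t31 := A4_symm β A 3 1
  have t32 := A4_symm β A 3 2
  refine ⟨?_, ?_, ?_⟩
  · rcases le_total (cv A 0 2) (cv A 0 1) with h | h
    · have := mda_four A hA β (Equiv.refl _) 0 1 2 3 rfl rfl rfl rfl ha hb hc h
      exact mul_nonneg (by linarith) (by linarith)
    · have := mda_four A hA β (Equiv.swap 1 2) 0 2 1 3 (by decide) (by decide) (by decide)
        (by decide) hb ha (by rw [s21]; exact hc) h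
      exact mul_nonneg_of_nonpos_of_nonpos (by linarith) (by linarith)
  · rcases le_total (cv A 0 3) (cv A 0 1) with h | h
    · have := mda_four A hA β (Equiv.swap 2 3) 0 1 3 2 (by decide) (by decide) (by decide)
        (by decide) (by rw [s32]; exact ha) hc hb h
      exact mul_nonneg (by linarith) (by linarith)
    · have := mda_four A hA β (Equiv.swap 1 2 * Equiv.swap 1 3) 0 3 1 2 (by decide) (by decide)
        (by decide) (by decide) hc (by rw [s32]; exact ha) (by rw [s31]; exact hb) h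
      exact mul_nonneg_of_nonpos_of_nonpos (by linarith) (by linarith)
  · rcases le_total (cv A 0 3) (cv A 0 2) with h | h
    · have := mda_four A hA β (Equiv.swap 1 3 * Equiv.swap 1 2) 0 2 3 1 (by decide) (by decide)
        (by decide) (by decide) (by rw [s31]; exact hb) (by rw [s21]; exact hc) ha h
      exact mul_nonneg (by linarith) (by linarith)
    · have := mda_four A hA β (Equiv.swap 1 3) 0 3 2 1 (by decide) (by decide)
        (by decide) (by decide) (by rw [s21]; exact hc) (by rw [s31]; exact hb)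
        (by rw [s32]; exact ha) h
      exact mul_nonneg_of_nonpos_of_nonpos (by linarith) (by linarith)
-- END mda

-- BEGIN moo
private theorem moo_gr (β : ℝ) (i j : Fin 4) :
    Gr (fun x : Fin 4 → ℝ => Lg β x * (pw β x i * pw β x j)) :=
  (Gr.Lg β).mul ((Gr.pw β i).mul (Gr.pw β j))

private theorem moo_scale (σ lam τ ω κ υ β : ℝ) :
    (fun i k => β * Bo σ lam τ ω κ υ i k) = Bo (β * σ) lam (β * τ) (β * ω) κ (β * υ) := by
  funext i k
  fin_cases i <;> fin_cases k <;> simp [Bo] <;> ring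

private theorem moo_congr {ι : Type} [Fintype ι] (A : Fin 4 → ι → ℝ) (β σ lam τ ω κ υ : ℝ)
    (h : ∀ i j, cv A i j = cv (Bo σ lam τ ω κ υ) i j) (i j : Fin 4) :
    A4 β A i j = A4 1 (Bo (β * σ) lam (β * τ) (β * ω) κ (β * υ)) i j := by
  have h1 : A4 β A i j = A4 β (Bo σ lam τ ω κ υ) i j :=
    EG_congr A (Bo σ lam τ ω κ υ) h (moo_gr β i j)
  rw [h1, A4_scale, moo_scale]

private theorem moo_psd {ι : Type} [Fintype ι] (A : Fin 4 → ι → ℝ) (hA : ∀ i, cv A i i = 1)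
    (hI : Inv A) (x y z t : ℝ) :
    0 ≤ x ^ 2 + y ^ 2 + z ^ 2 + t ^ 2 + 2 * cv A 0 1 * (x * y) + 2 * cv A 2 3 * (z * t) +
      2 * cv A 0 2 * (x * z + y * t) + 2 * cv A 0 3 * (x * t + y * z) := by
  have h2 := gram4 A ![x, y, z, t]
  obtain ⟨hb, hc⟩ := hI
  have e0 : (![x, y, z, t] : Fin 4 → ℝ) 0 = x := rfl
  have e1 : (![x, y, z, t] : Fin 4 → ℝ) 1 = y := rfl
  have e2 : (![x, y, z, t] : Fin 4 → ℝ) 2 = z := rfl
  have e3 : (![x, y, z, t] : Fin 4 → ℝ) 3 = t := rfl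
  simp only [Fin.sum_univ_four, e0, e1, e2, e3] at h2
  rw [hA 0, hA 1, hA 2, hA 3, cv_symm4 A 1 0, cv_symm4 A 2 0, cv_symm4 A 2 1, cv_symm4 A 3 0,
    cv_symm4 A 3 1, cv_symm4 A 3 2, ← hb, ← hc] at h2
  linarith

/-- opposite edges: `ρ₀₁ ≥ ρ₂₃` gives `A₀₁ ≥ A₂₃` (from `A4_scale`, `gram4`, `rep_o`, `cv_Bo`,
`EG_congr`, `core_o` with the parameters `β σ, lam, β τ, β ω, κ, β υ`) -/
theorem mono_o {ι : Type} [Fintype ι] (A : Fin 4 → ι → ℝ) (hA : ∀ i, cv A i i = 1) (hI : Inv A)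
    (β : ℝ) (h : cv A 2 3 ≤ cv A 0 1) : A4 β A 2 3 ≤ A4 β A 0 1 := by
  have hpsd := moo_psd A hA hI
  obtain ⟨σ, lam, τ, ω, κ, υ, hl, hκ, e0, e2, e01, e23, e02, e03⟩ :=
    rep_o (cv A 0 1) (cv A 2 3) (cv A 0 2) (cv A 0 3) hpsd h
  obtain ⟨cs, c00, c11, c22, c33, c01, c23, c02, c13, c03, c12⟩ := cv_Bo σ lam τ ω κ υ
  obtain ⟨hb, hc⟩ := hI
  have k00 : cv A 0 0 = cv (Bo σ lam τ ω κ υ) 0 0 := by rw [hA 0, c00, e0]
  have k11 : cv A 1 1 = cv (Bo σ lam τ ω κ υ) 1 1 := by rw [hA 1, c11, e0]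
  have k22 : cv A 2 2 = cv (Bo σ lam τ ω κ υ) 2 2 := by rw [hA 2, c22, e2]
  have k33 : cv A 3 3 = cv (Bo σ lam τ ω κ υ) 3 3 := by rw [hA 3, c33, e2]
  have k01 : cv A 0 1 = cv (Bo σ lam τ ω κ υ) 0 1 := by rw [c01, e01]
  have k23 : cv A 2 3 = cv (Bo σ lam τ ω κ υ) 2 3 := by rw [c23, e23]
  have k02 : cv A 0 2 = cv (Bo σ lam τ ω κ υ) 0 2 := by rw [c02, e02]
  have k13 : cv A 1 3 = cv (Bo σ lam τ ω κ υ) 1 3 := by rw [c13, e02, hb]
  have k03 : cv A 0 3 = cv (Bo σ lam τ ω κ υ) 0 3 := by rw [c03, e03]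
  have k12 : cv A 1 2 = cv (Bo σ lam τ ω κ υ) 1 2 := by rw [c12, e03, hc]
  have hcv : ∀ i j, cv A i j = cv (Bo σ lam τ ω κ υ) i j := by
    intro i j
    fin_cases i <;> fin_cases j
    · exact k00
    · exact k01
    · exact k02
    · exact k03
    · exact (cv_symm4 A 1 0).trans (k01.trans (cs 0 1))
    · exact k11
    · exact k12
    · exact k13
    · exact (cv_symm4 A 2 0).trans (k02.trans (cs 0 2))
    · exact (cv_symm4 A 2 1).trans (k12.trans (cs 1 2))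
    · exact k22
    · exact k23
    · exact (cv_symm4 A 3 0).trans (k03.trans (cs 0 3))
    · exact (cv_symm4 A 3 1).trans (k13.trans (cs 1 3))
    · exact (cv_symm4 A 3 2).trans (k23.trans (cs 2 3))
    · exact k33
  rw [moo_congr A β σ lam τ ω κ υ hcv 2 3, moo_congr A β σ lam τ ω κ υ hcv 0 1]
  have hm := core_o (β * σ) lam (β * τ) (β * ω) κ (β * υ) hl hκ
  have hs := EG_sub (moo_gr 1 0 1) (moo_gr 1 2 3) (Bo (β * σ) lam (β * τ) (β * ω) κ (β * υ))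
  have he : (fun x : Fin 4 → ℝ => Lg 1 x * (pw 1 x 0 * pw 1 x 1 - pw 1 x 2 * pw 1 x 3)) =
      fun x : Fin 4 → ℝ => Lg 1 x * (pw 1 x 0 * pw 1 x 1) - Lg 1 x * (pw 1 x 2 * pw 1 x 3) := by
    funext x
    ring
  rw [he, hs] at hm
  unfold A4
  linarith
-- END moo

-- BEGIN pod
private theorem pod_one {ι : Type} [Fintype ι] (A : Fin 4 → ι → ℝ) (R : ℝ)
    (hR : ∀ m, ∑ l, cv A l m = R) (β : ℝ) (i j : Fin 4) : 0 ≤ A4 β A i j := by
  have hn : 0 < 4 := by norm_num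
  have hP : Gr (fun x : Fin 4 → ℝ => pw β x i * pw β x j) := (Gr.pw β i).mul (Gr.pw β j)
  have hPm : ∀ m, Gr (fun x : Fin 4 → ℝ => pw β x i * pw β x j * pw β x m) := fun m =>
    hP.mul (Gr.pw β m)
  have hP0 : ∀ x : Fin 4 → ℝ, 0 ≤ pw β x i * pw β x j := fun x =>
    mul_nonneg (pw_nonneg β x i) (pw_nonneg β x j)
  obtain ⟨D, hD⟩ : ∃ D : Fin 4 → (Fin 4 → ℝ) → ℝ, ∀ m x, D m x =
      β * ((if i = m then 1 else 0) + (if j = m then 1 else 0)) * (pw β x i * pw β x j) +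
        (-2 * β) * (pw β x i * pw β x j * pw β x m) := ⟨_, fun m x => rfl⟩
  have hDer : Der (fun x : Fin 4 → ℝ => pw β x i * pw β x j) D := by
    refine ((der_pw β i).mul (der_pw β j)).congr fun m x => ?_
    rw [hD]
    ring
  have hDf : ∀ m, D m = fun x => β * ((if i = m then 1 else 0) + (if j = m then 1 else 0)) *
      (pw β x i * pw β x j) + (-2 * β) * (pw β x i * pw β x j * pw β x m) := fun m =>
    funext fun x => hD m x
  have hDg : ∀ m, Gr (D m) := by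
    intro m
    rw [hDf]
    exact (hP.const_mul _).add ((hPm m).const_mul _)
  obtain ⟨E0, hE0⟩ : ∃ E0 : ℝ, E0 = EG A (fun x => pw β x i * pw β x j) := ⟨_, rfl⟩
  obtain ⟨Em, hEm⟩ : ∃ Em : Fin 4 → ℝ, ∀ m, Em m = EG A (fun x => pw β x i * pw β x j * pw β x m) :=
    ⟨_, fun m => rfl⟩
  have hED : ∀ m, EG A (D m) = β * ((if i = m then 1 else 0) + (if j = m then 1 else 0)) * E0 +
      (-2 * β) * Em m := by
    intro m
    rw [hDf, EG_add (hP.const_mul _) ((hPm m).const_mul _), EG_const_mul, EG_const_mul, ← hE0, ← hEm]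
  have hsum : ∑ m, Em m = E0 := by
    rw [Finset.sum_congr rfl fun m _ => hEm m, hE0, ← EG_sum Finset.univ hPm]
    congr 1
    funext x
    rw [← Finset.mul_sum, pw_sum hn, mul_one]
  have hDsum : ∑ m, EG A (D m) = 0 := by
    have h1 : ∑ m : Fin 4, β * ((if i = m then 1 else 0) + (if j = m then 1 else 0)) * E0 =
        2 * β * E0 := by
      rw [← Finset.sum_mul, ← Finset.mul_sum, Finset.sum_add_distrib, Finset.sum_ite_eq,
        Finset.sum_ite_eq, if_pos (Finset.mem_univ _), if_pos (Finset.mem_univ _)]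
      ring
    rw [Finset.sum_congr rfl fun m _ => hED m, Finset.sum_add_distrib, h1, ← Finset.mul_sum, hsum]
    ring
  have htot : ∑ l, EG A (fun x => x l * (pw β x i * pw β x j)) = 0 := by
    rw [Finset.sum_congr rfl fun l _ => stein_co A _ D hDer hP hDg l, Finset.sum_comm]
    have h1 : ∀ m, ∑ l, cv A l m * EG A (D m) = R * EG A (D m) := fun m => by
      rw [← Finset.sum_mul, hR]
    rw [Finset.sum_congr rfl fun m _ => h1 m, ← Finset.mul_sum, hDsum, mul_zero]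
  have hlow : ∀ x : Fin 4 → ℝ, ∑ l, β / 4 * (x l * (pw β x i * pw β x j)) ≤
      Lg β x * (pw β x i * pw β x j) := by
    intro x
    have h1 : ∀ m : Fin 4, β * x m ≤ Lg β x := by
      intro m
      unfold Lg
      rw [le_log_iff_exp_le (Sm_pos hn β x)]
      unfold Sm
      exact Finset.single_le_sum (f := fun k => exp (β * x k)) (fun k _ => (exp_pos _).le)
        (Finset.mem_univ m)
    have h2 := mul_le_mul_of_nonneg_right (h1 0) (hP0 x)
    have h3 := mul_le_mul_of_nonneg_right (h1 1) (hP0 x)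
    have h4 := mul_le_mul_of_nonneg_right (h1 2) (hP0 x)
    have h5 := mul_le_mul_of_nonneg_right (h1 3) (hP0 x)
    rw [Fin.sum_univ_four]
    linarith
  have hgi : ∀ l : Fin 4, Gr (fun x : Fin 4 → ℝ => β / 4 * (x l * (pw β x i * pw β x j))) := fun l =>
    ((Gr.coord l).mul hP).const_mul _
  have hmain := EG_mono (Gr.sum Finset.univ hgi) ((Gr.Lg β).mul hP) hlow A
  rw [EG_sum Finset.univ hgi, Finset.sum_congr rfl fun l _ => EG_const_mul (β / 4)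
    (fun x : Fin 4 → ℝ => x l * (pw β x i * pw β x j)) A, ← Finset.mul_sum, htot, mul_zero] at hmain
  exact hmain

/-- positivity of the sum for disphenoids: `Lg β x ≥ β x̄ + log 4 ≥ β x̄` (AM-GM), and
`E x̄ ∑ p_i p_j = 0` by `SM3.stein_co` (all row sums of `cv A` are equal, `∑_m ∂_m (p_i p_j) = 0`) -/
theorem pos_d {ι : Type} [Fintype ι] (A : Fin 4 → ι → ℝ) (hA : ∀ i, cv A i i = 1) (hD : Dis A)
    (β : ℝ) : 0 ≤ (A4 β A 0 1 + A4 β A 2 3) + (A4 β A 0 2 + A4 β A 1 3) +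
      (A4 β A 0 3 + A4 β A 1 2) := by
  obtain ⟨d1, d2, d3⟩ := hD
  have s := cv_symm4 A
  have hR : ∀ m, ∑ l, cv A l m = 1 + cv A 0 1 + cv A 0 2 + cv A 0 3 := by
    intro m
    rw [Fin.sum_univ_four]
    fin_cases m
    · show cv A 0 0 + cv A 1 0 + cv A 2 0 + cv A 3 0 = _
      rw [hA 0, s 1 0, s 2 0, s 3 0]
    · show cv A 0 1 + cv A 1 1 + cv A 2 1 + cv A 3 1 = _
      rw [hA 1, s 2 1, s 3 1, d2, d3]
      ring
    · show cv A 0 2 + cv A 1 2 + cv A 2 2 + cv A 3 2 = _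
      rw [hA 2, s 3 2, ← d1, ← d3]
      ring
    · show cv A 0 3 + cv A 1 3 + cv A 2 3 + cv A 3 3 = _
      rw [hA 3, ← d1, ← d2]
      ring
  have h := pod_one A _ hR β
  linarith [h 0 1, h 2 3, h 0 2, h 1 3, h 0 3, h 1 2]
-- END pod

-- BEGIN dq4
/-- expansion of the derivative: for a symmetric `Δ` with zero diagonal (as `SM3.EG_qA`) -/
theorem EG_qA4 {ι : Type} [Fintype ι] (A : Fin 4 → ι → ℝ) (Δ : Fin 4 → Fin 4 → ℝ)
    (h0 : ∀ i, Δ i i = 0) (hs : ∀ i j, Δ i j = Δ j i) (β : ℝ) :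
    EG A (fun x => Lg β x * qA Δ β x) =
      2 * (Δ 0 1 * A4 β A 0 1 + Δ 0 2 * A4 β A 0 2 + Δ 0 3 * A4 β A 0 3 + Δ 1 2 * A4 β A 1 2 +
        Δ 1 3 * A4 β A 1 3 + Δ 2 3 * A4 β A 2 3) := by
  have hg : ∀ i j : Fin 4, Gr (fun x : Fin 4 → ℝ => Lg β x * (pw β x i * pw β x j)) :=
    fun i j => (Gr.Lg β).mul ((Gr.pw β i).mul (Gr.pw β j))
  have hc : ∀ i j : Fin 4, Gr (fun x : Fin 4 → ℝ => Δ i j * (Lg β x * (pw β x i * pw β x j))) :=
    fun i j => (hg i j).const_mul _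
  have e1 : (fun x : Fin 4 → ℝ => Lg β x * qA Δ β x) = fun x =>
      2 * (Δ 0 1 * (Lg β x * (pw β x 0 * pw β x 1)) + Δ 0 2 * (Lg β x * (pw β x 0 * pw β x 2)) +
        Δ 0 3 * (Lg β x * (pw β x 0 * pw β x 3)) + Δ 1 2 * (Lg β x * (pw β x 1 * pw β x 2)) +
        Δ 1 3 * (Lg β x * (pw β x 1 * pw β x 3)) + Δ 2 3 * (Lg β x * (pw β x 2 * pw β x 3))) := by
    funext x
    unfold qA
    simp only [Fin.sum_univ_four, h0, hs 1 0, hs 2 0, hs 2 1, hs 3 0, hs 3 1, hs 3 2]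
    ring
  rw [e1, EG_const_mul,
    EG_add (((((hc 0 1).add (hc 0 2)).add (hc 0 3)).add (hc 1 2)).add (hc 1 3)) (hc 2 3),
    EG_add ((((hc 0 1).add (hc 0 2)).add (hc 0 3)).add (hc 1 2)) (hc 1 3),
    EG_add (((hc 0 1).add (hc 0 2)).add (hc 0 3)) (hc 1 2),
    EG_add ((hc 0 1).add (hc 0 2)) (hc 0 3), EG_add (hc 0 1) (hc 0 2), EG_const_mul,
    EG_const_mul, EG_const_mul, EG_const_mul, EG_const_mul, EG_const_mul]
  rfl
-- END dq4

-- BEGIN in4
/-- if the expectation in the derivative is `≤ 0` on `[0, T]`, the functional increases up to `T`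
(`SMx.derG`, `SMx.path_zero`) -/
theorem F4_le (a b : Fin 4 → Fin 4 → ℝ) (ha : ∀ i, cv a i i = 1) (hb : ∀ i, cv b i i = 1) (β T : ℝ)
    (hT0 : 0 ≤ T) (hT : T ≤ π / 2)
    (h : ∀ θ, 0 ≤ θ → θ ≤ T → EG (path a b θ) (fun x => Lg β x * qA (dl a b) β x) ≤ 0) :
    F4 β a ≤ F4 β (path a b T) := by
  have hdl : ∀ i, dl a b i i = 0 := by
    intro i
    unfold dl
    rw [ha i, hb i, sub_self]
  have hderiv := derG (by norm_num : 0 < 4) a b hdl β
  have hmono : MonotoneOn (fun t => EG (path a b t) (fun x => (Lg β x + 1) ^ 2))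
      (Set.Icc 0 T) := by
    apply monotoneOn_of_deriv_nonneg (convex_Icc _ _)
    · exact fun t _ => (hderiv t).continuousAt.continuousWithinAt
    · exact fun t _ => (hderiv t).differentiableAt.differentiableWithinAt
    · intro t ht
      rw [interior_Icc] at ht
      have ht2 : t ≤ π / 2 := ht.2.le.trans hT
      rw [(hderiv t).deriv]
      have hs : 0 ≤ sin t := sin_nonneg_of_nonneg_of_le_pi ht.1.le (by linarith [pi_pos])
      have hcs : 0 ≤ cos t := cos_nonneg_of_neg_pi_div_two_le_of_le (by linarith [ht.1, pi_pos]) ht2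
      have h2 := h t ht.1.le ht.2.le
      have h3 : 0 ≤ 2 * β ^ 2 * (sin t * cos t) := by positivity
      nlinarith [mul_nonneg h3 (neg_nonneg.mpr h2)]
  have gG : Gr (fun x : Fin 4 → ℝ => (Lg β x + 1) ^ 2) := ((Gr.Lg β).add (Gr.const 1)).sq
  have h5 := hmono ⟨le_rfl, hT0⟩ ⟨hT0, le_rfl⟩ hT0
  simp only at h5
  rw [path_zero a b gG] at h5
  exact h5

theorem F4_pi (a b : Fin 4 → Fin 4 → ℝ) (β : ℝ) : F4 β (path a b (π / 2)) = F4 β b := by
  have gG : Gr (fun x : Fin 4 → ℝ => (Lg β x + 1) ^ 2) := ((Gr.Lg β).add (Gr.const 1)).sq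
  unfold F4
  rw [path_pi a b gG]

theorem F4_congr {ι κ : Type} [Fintype ι] [Fintype κ] (A : Fin 4 → ι → ℝ) (B : Fin 4 → κ → ℝ)
    (h : ∀ i j, cv A i j = cv B i j) (β : ℝ) : F4 β A = F4 β B := by
  have gG : Gr (fun x : Fin 4 → ℝ => (Lg β x + 1) ^ 2) := ((Gr.Lg β).add (Gr.const 1)).sq
  unfold F4
  exact EG_congr A B h gG
-- END in4

-- BEGIN st1
private theorem st1_main (a : Fin 4 → Fin 4 → ℝ) (ha : ∀ i, cv a i i = 1) (hI : Inv a) (β : ℝ)
    (h : cv a 2 3 ≤ cv a 0 1) :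
    ∃ b : Fin 4 → Fin 4 → ℝ, (∀ i, cv b i i = 1) ∧ Dis b ∧ F4 β a ≤ F4 β b := by
  obtain ⟨hI1, hI2⟩ := hI
  have s20 := cv_symm4 a 2 0
  have s31 := cv_symm4 a 3 1
  have s21 := cv_symm4 a 2 1
  have s30 := cv_symm4 a 3 0
  set b : Fin 4 → Fin 4 → ℝ := ![a 2, a 3, a 0, a 1] with hbdef
  have hb : ∀ i, cv b i i = 1 := by
    intro i
    fin_cases i
    · exact ha 2
    · exact ha 3
    · exact ha 0
    · exact ha 1
  have b01 : cv b 0 1 = cv a 2 3 := rfl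
  have b23 : cv b 2 3 = cv a 0 1 := rfl
  have b02 : cv b 0 2 = cv a 0 2 := (show cv b 0 2 = cv a 2 0 from rfl).trans s20
  have b13 : cv b 1 3 = cv a 1 3 := (show cv b 1 3 = cv a 3 1 from rfl).trans s31
  have b03 : cv b 0 3 = cv a 0 3 := by
    rw [show cv b 0 3 = cv a 2 1 from rfl, s21, hI2]
  have b12 : cv b 1 2 = cv a 1 2 := by
    rw [show cv b 1 2 = cv a 3 0 from rfl, s30, hI2]
  have hsc : ∀ θ : ℝ, sin θ ^ 2 + cos θ ^ 2 = 1 := sin_sq_add_cos_sq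
  have p01 : ∀ θ, cv (path a b θ) 0 1 = cos θ ^ 2 * cv a 0 1 + sin θ ^ 2 * cv a 2 3 := fun θ => by
    rw [pathcv, b01]
  have p23 : ∀ θ, cv (path a b θ) 2 3 = cos θ ^ 2 * cv a 2 3 + sin θ ^ 2 * cv a 0 1 := fun θ => by
    rw [pathcv, b23]
  have pc : ∀ (θ : ℝ) (i j : Fin 4), cv b i j = cv a i j → cv (path a b θ) i j = cv a i j := by
    intro θ i j hij
    rw [pathcv, hij, ← add_mul, add_comm, hsc, one_mul]
  have pu : ∀ θ i, cv (path a b θ) i i = 1 := fun θ i => by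
    rw [pc θ i i ((hb i).trans (ha i).symm), ha]
  have pI : ∀ θ, Inv (path a b θ) := fun θ =>
    ⟨by rw [pc θ 0 2 b02, pc θ 1 3 b13, hI1], by rw [pc θ 0 3 b03, pc θ 1 2 b12, hI2]⟩
  have hstep : F4 β a ≤ F4 β (path a b (π / 4)) := by
    refine F4_le a b ha hb β (π / 4) (by positivity) (by linarith [pi_pos]) ?_
    intro θ h0 hT
    have hcs : sin θ ^ 2 ≤ cos θ ^ 2 := by
      have h1 : 0 ≤ cos (2 * θ) := by
        refine cos_nonneg_of_mem_Icc ⟨by linarith [pi_pos], by linarith⟩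
      rw [cos_two_mul] at h1
      have h2 := hsc θ
      linarith
    have hle : cv (path a b θ) 2 3 ≤ cv (path a b θ) 0 1 := by
      rw [p01, p23]
      nlinarith
    have hm := mono_o (path a b θ) (pu θ) (pI θ) β hle
    rw [EG_qA4 (path a b θ) (dl a b) (fun i => by unfold dl; rw [hb, ha, sub_self])
      (fun i j => by unfold dl; rw [cv_symm4 b i j, cv_symm4 a i j]) β]
    have d01 : dl a b 0 1 = cv a 2 3 - cv a 0 1 := by unfold dl; rw [b01]
    have d23 : dl a b 2 3 = cv a 0 1 - cv a 2 3 := by unfold dl; rw [b23]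
    have d02 : dl a b 0 2 = 0 := by unfold dl; rw [b02, sub_self]
    have d13 : dl a b 1 3 = 0 := by unfold dl; rw [b13, sub_self]
    have d03 : dl a b 0 3 = 0 := by unfold dl; rw [b03, sub_self]
    have d12 : dl a b 1 2 = 0 := by unfold dl; rw [b12, sub_self]
    rw [d01, d23, d02, d13, d03, d12]
    have h3 : 0 ≤ (cv a 0 1 - cv a 2 3) * (A4 β (path a b θ) 0 1 - A4 β (path a b θ) 2 3) :=
      mul_nonneg (by linarith) (by linarith)
    linarith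
  obtain ⟨c, hc⟩ := square (path a b (π / 4))
  have hcos : cos (π / 4) ^ 2 = 1 / 2 := by
    have h1 := cos_sq (π / 4)
    rw [show 2 * (π / 4) = π / 2 by ring, cos_pi_div_two] at h1
    linarith
  have hsin : sin (π / 4) ^ 2 = 1 / 2 := by
    have h1 := hsc (π / 4)
    linarith
  refine ⟨c, fun i => by rw [hc, pu], ⟨?_, ?_, ?_⟩, ?_⟩
  · rw [hc, hc, p01, p23, hcos, hsin]
    ring
  · rw [hc, hc]
    exact (pI (π / 4)).1
  · rw [hc, hc]
    exact (pI (π / 4)).2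
  · rw [F4_congr c (path a b (π / 4)) hc β]
    exact hstep

/-- first step: averaging `ρ₀₁` and `ρ₂₃`.  If `cv a 2 3 ≤ cv a 0 1` (otherwise exchange the roles):
path from `a` to `a ∘ (0 2)(1 3)` on `[0, π/4]`; there `cv 2 3 ≤ cv 0 1`, `Inv` holds, `dl 0 1 =
-(cv a 0 1 - cv a 2 3)`, `dl 2 3 = cv a 0 1 - cv a 2 3`, the other entries are zero; `mono_o`,
`EG_qA4`, `F4_le`; the end point has the average covariance, square root by `square`. -/
theorem step1 (a : Fin 4 → Fin 4 → ℝ) (ha : ∀ i, cv a i i = 1) (hI : Inv a) (β : ℝ) :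
    ∃ b : Fin 4 → Fin 4 → ℝ, (∀ i, cv b i i = 1) ∧ Dis b ∧ F4 β a ≤ F4 β b := by
  rcases le_total (cv a 2 3) (cv a 0 1) with h | h
  · exact st1_main a ha hI β h
  · let σ : Equiv.Perm (Fin 4) := ⟨![2, 3, 0, 1], ![2, 3, 0, 1], by decide, by decide⟩
    have hI' : Inv (fun i => a (σ i)) := by
      constructor
      · change cv a 2 0 = cv a 3 1
        rw [cv_symm4 a 2 0, cv_symm4 a 3 1]
        exact hI.1
      · change cv a 2 1 = cv a 3 0
        rw [cv_symm4 a 2 1, cv_symm4 a 3 0]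
        exact hI.2.symm
    obtain ⟨b, hb, hD, hF⟩ := st1_main (fun i => a (σ i)) (fun i => ha (σ i)) hI' β
      (show cv a 0 1 ≤ cv a 2 3 from h)
    rw [F4_perm β a σ] at hF
    exact ⟨b, hb, hD, hF⟩
-- END st1

-- BEGIN cd4
private theorem cd4_sym {ι : Type} [Fintype ι] (P : Fin 4 → ι → ℝ) (h1 : ∀ i, cv P i i = 1)
    (h : ∀ i j : Fin 4, i ≠ j → cv P i j = -1 / 3) (β : ℝ) (σ : Equiv.Perm (Fin 4)) (i j : Fin 4) :
    A4 β P (σ i) (σ j) = A4 β P i j := by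
  rw [← A4_perm]
  unfold A4
  refine EG_congr _ _ (fun i j => ?_) (((Gr.Lg β).mul ((Gr.pw β _).mul (Gr.pw β _))))
  show cv P (σ i) (σ j) = cv P i j
  by_cases hij : i = j
  · rw [hij, h1, h1]
  · rw [h i j hij, h _ _ (fun e => hij (σ.injective e))]

/-- disphenoids: path to `spx 4` (`cv = -1/3` off the diagonal), `EG_qA4`, `mono_all`, `pos_d`,
`SM3.cheb3` (needs `0 ≤ a_i` for each: use instead the identity
`3 ∑ d_i a_i = (∑ d)(∑ a) + ∑_{i<j} (d_i - d_j)(a_i - a_j)`), `∑ (cv a 0 j + 1/3) ≥ 0` by `gram4` at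
`(1,1,1,1)` -/
theorem core_dis (a : Fin 4 → Fin 4 → ℝ) (ha : ∀ i, cv a i i = 1) (hD : Dis a) (β : ℝ) :
    F4 β a ≤ F4 β (spx 4) := by
  have hn : 2 ≤ 4 := by norm_num
  have hs : ∀ i j : Fin 4, i ≠ j → cv (spx 4) i j = -1 / 3 := by
    intro i j hij
    rw [spx_cv hn, if_neg hij]
    norm_num
  have hs1 : ∀ i : Fin 4, cv (spx 4) i i = 1 := by
    intro i
    rw [spx_cv hn, if_pos rfl]
  have n01 : (0 : Fin 4) ≠ 1 := by decide
  have n02 : (0 : Fin 4) ≠ 2 := by decide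
  have n03 : (0 : Fin 4) ≠ 3 := by decide
  have n12 : (1 : Fin 4) ≠ 2 := by decide
  have n13 : (1 : Fin 4) ≠ 3 := by decide
  have n23 : (2 : Fin 4) ≠ 3 := by decide
  have hpi : (0 : ℝ) ≤ π / 2 := by positivity
  obtain ⟨e1, e2, e3⟩ := hD
  have hfin : F4 β a ≤ F4 β (path a (spx 4) (π / 2)) := by
    refine F4_le a (spx 4) ha hs1 β (π / 2) hpi le_rfl fun θ _ _ => ?_
    have hA : ∀ i, cv (path a (spx 4) θ) i i = 1 := fun i => path_unit hn a ha θ i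
    have hc : ∀ i j : Fin 4, i ≠ j →
        cv (path a (spx 4) θ) i j = cos θ ^ 2 * cv a i j + sin θ ^ 2 * (-1 / 3) := by
      intro i j hij
      rw [pathcv, hs i j hij]
    have hDP : Dis (path a (spx 4) θ) := by
      refine ⟨?_, ?_, ?_⟩
      · rw [hc 0 1 n01, hc 2 3 n23, e1]
      · rw [hc 0 2 n02, hc 1 3 n13, e2]
      · rw [hc 0 3 n03, hc 1 2 n12, e3]
    have hd : ∀ i j : Fin 4, i ≠ j → dl a (spx 4) i j = -(cv a i j + 1 / 3) := by
      intro i j hij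
      unfold dl
      rw [hs i j hij]
      ring
    rw [EG_qA4 (path a (spx 4) θ) (dl a (spx 4)) (fun i => by unfold dl; rw [hs1, ha]; ring)
      (fun i j => by unfold dl; rw [cv_symm4 a i j, cv_symm4 (spx 4) i j]) β, hd 0 1 n01, hd 0 2 n02,
      hd 0 3 n03, hd 1 2 n12, hd 1 3 n13, hd 2 3 n23, ← e1, ← e2, ← e3]
    have hsum : 0 ≤ (cv a 0 1 + 1 / 3) + (cv a 0 2 + 1 / 3) + (cv a 0 3 + 1 / 3) := by
      have hg := gram4 a (fun _ => 1)
      simp only [Fin.sum_univ_four, one_mul] at hg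
      rw [ha 0, ha 1, ha 2, ha 3, cv_symm4 a 1 0, cv_symm4 a 2 0, cv_symm4 a 3 0, cv_symm4 a 2 1,
        cv_symm4 a 3 1, cv_symm4 a 3 2, ← e1, ← e2, ← e3] at hg
      linarith
    have hpos := pos_d _ hA hDP β
    obtain ⟨m1, m2, m3⟩ := mono_all _ hA hDP β
    rw [hc 0 1 n01, hc 0 2 n02] at m1
    rw [hc 0 1 n01, hc 0 3 n03] at m2
    rw [hc 0 2 n02, hc 0 3 n03] at m3
    have key : 0 ≤ (cv a 0 1 - cv a 0 2) * ((A4 β (path a (spx 4) θ) 0 1 + A4 β (path a (spx 4) θ) 2 3) -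
          (A4 β (path a (spx 4) θ) 0 2 + A4 β (path a (spx 4) θ) 1 3)) ∧
        0 ≤ (cv a 0 1 - cv a 0 3) * ((A4 β (path a (spx 4) θ) 0 1 + A4 β (path a (spx 4) θ) 2 3) -
          (A4 β (path a (spx 4) θ) 0 3 + A4 β (path a (spx 4) θ) 1 2)) ∧
        0 ≤ (cv a 0 2 - cv a 0 3) * ((A4 β (path a (spx 4) θ) 0 2 + A4 β (path a (spx 4) θ) 1 3) -
          (A4 β (path a (spx 4) θ) 0 3 + A4 β (path a (spx 4) θ) 1 2)) := by
      by_cases hcos : cos θ = 0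
      · have hsin : sin θ ^ 2 = 1 := by
          have := sin_sq_add_cos_sq θ
          rw [hcos] at this
          linarith
        have hP : ∀ i j : Fin 4, i ≠ j → cv (path a (spx 4) θ) i j = -1 / 3 := by
          intro i j hij
          rw [hc i j hij, hcos, hsin]
          ring
        have q02 : A4 β (path a (spx 4) θ) 0 2 = A4 β (path a (spx 4) θ) 0 1 :=
          cd4_sym _ hA hP β (Equiv.swap 1 2) 0 1
        have q03 : A4 β (path a (spx 4) θ) 0 3 = A4 β (path a (spx 4) θ) 0 1 :=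
          cd4_sym _ hA hP β (Equiv.swap 1 3) 0 1
        have q12 : A4 β (path a (spx 4) θ) 1 2 = A4 β (path a (spx 4) θ) 0 2 :=
          cd4_sym _ hA hP β (Equiv.swap 0 1) 0 2
        have q13 : A4 β (path a (spx 4) θ) 1 3 = A4 β (path a (spx 4) θ) 0 3 :=
          cd4_sym _ hA hP β (Equiv.swap 0 1) 0 3
        have q23 : A4 β (path a (spx 4) θ) 2 3 = A4 β (path a (spx 4) θ) 1 3 :=
          cd4_sym _ hA hP β (Equiv.swap 1 2) 1 3
        rw [q23, q13, q12, q02, q03]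
        refine ⟨?_, ?_, ?_⟩ <;> simp
      · have hc2 : 0 < cos θ ^ 2 := by positivity
        refine ⟨?_, ?_, ?_⟩
        · refine nonneg_of_mul_nonneg_right (le_of_le_of_eq m1 ?_) hc2
          ring
        · refine nonneg_of_mul_nonneg_right (le_of_le_of_eq m2 ?_) hc2
          ring
        · refine nonneg_of_mul_nonneg_right (le_of_le_of_eq m3 ?_) hc2
          ring
    obtain ⟨k1, k2, k3⟩ := key
    have hprod := mul_nonneg hsum hpos
    nlinarith [hprod, k1, k2, k3]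
  rw [F4_pi] at hfin
  exact hfin
-- END cd4

/-- the core inequality -/
theorem core4 (a : Fin 4 → Fin 4 → ℝ) (ha : ∀ i, cv a i i = 1) (hI : Inv a) (β : ℝ) :
    F4 β a ≤ F4 β (spx 4) := by
  obtain ⟨b, hb, hD, h⟩ := step1 a ha hI β
  exact h.trans (core_dis b hb hD β)

-- BEGIN fin4
/-- the soft-max inequality (the proof of `SM3.soft3` with `core4`, `n = 4`) -/
theorem soft4 {Ω : Type*} [MeasurableSpace Ω] (β : ℝ) (hβ : 0 < β)
    (P : Measure Ω) [IsProbabilityMeasure P] {Ω' : Type*} [MeasurableSpace Ω'] (P' : Measure Ω')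
    [IsProbabilityMeasure P'] (X : Ω → Fin 4 → ℝ) (S : Ω' → Fin 4 → ℝ) (hX : CG P X) (hS : CG P' S)
    (hX1 : ∀ i, ∫ ω, X ω i ^ 2 ∂P = 1)
    (hX2 : ∫ ω, X ω 0 * X ω 2 ∂P = ∫ ω, X ω 1 * X ω 3 ∂P)
    (hX3 : ∫ ω, X ω 0 * X ω 3 ∂P = ∫ ω, X ω 1 * X ω 2 ∂P)
    (hS1 : ∀ i j, ∫ ω, S ω i * S ω j ∂P' = if i = j then 1 else -1 / 3)
    (G : Ω → ℝ) (G' : Ω' → ℝ) (hG : IsPerp P X (fun ω => sm β (X ω)) G)
    (hG' : IsPerp P' S (fun ω => sm β (S ω)) G') :
    ∫ ω, (G ω + 1 / β) ^ 2 ∂P ≤ ∫ ω, (G' ω + 1 / β) ^ 2 ∂P' := by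
  obtain ⟨a, ha⟩ := root P X hX
  have hn : 2 ≤ 4 := by norm_num
  have ha1 : ∀ i, cv a i i = 1 := by
    intro i
    rw [ha i i, ← hX1 i]
    apply integral_congr_ae
    exact Filter.Eventually.of_forall fun ω => by ring
  have hI : Inv a := by
    refine ⟨?_, ?_⟩
    · rw [ha 0 2, ha 1 3]
      exact hX2
    · rw [ha 0 3, ha 1 2]
      exact hX3
  have hs : ∀ i j, cv (spx 4) i j = ∫ ω, S ω i * S ω j ∂P' := by
    intro i j
    rw [hS1 i j, spx_cv hn i j]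
    norm_num
  have gs : Gr (fun x : Fin 4 → ℝ => sm β x) := by
    have e : (fun x : Fin 4 → ℝ => sm β x) = fun x => 1 / β * Lg β x := rfl
    rw [e]
    exact (Gr.Lg β).const_mul _
  have gG : Gr (fun x : Fin 4 → ℝ => (Lg β x + 1) ^ 2) := ((Gr.Lg β).add (Gr.const 1)).sq
  have gO : ∀ i : Fin 4, Gr (fun x : Fin 4 → ℝ => Lg β x * x i) := fun i => (Gr.Lg β).mul (Gr.coord i)
  have e : ∀ x : Fin 4 → ℝ, (sm β x + 1 / β) ^ 2 = (1 / β) ^ 2 * (Lg β x + 1) ^ 2 := by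
    intro x
    unfold sm Lg Sm
    ring
  have eX : ∫ ω, (sm β (X ω) + 1 / β) ^ 2 ∂P = (1 / β) ^ 2 * EG a (fun x => (Lg β x + 1) ^ 2) := by
    rw [← transfer P X hX a ha gG, ← integral_const_mul]
    exact integral_congr_ae (Filter.Eventually.of_forall fun ω => e (X ω))
  have eS : ∫ ω, (sm β (S ω) + 1 / β) ^ 2 ∂P' =
      (1 / β) ^ 2 * EG (spx 4) (fun x => (Lg β x + 1) ^ 2) := by
    rw [← transfer P' S hS (spx 4) hs gG, ← integral_const_mul]
    exact integral_congr_ae (Filter.Eventually.of_forall fun ω => e (S ω))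
  have hO : ∀ i, ∫ ω, sm β (S ω) * S ω i ∂P' = 0 := by
    intro i
    have h1 : ∫ ω, sm β (S ω) * S ω i ∂P' = 1 / β * ∫ ω, Lg β (S ω) * S ω i ∂P' := by
      rw [← integral_const_mul]
      apply integral_congr_ae
      exact Filter.Eventually.of_forall fun ω => by
        show sm β (S ω) * S ω i = 1 / β * (Lg β (S ω) * S ω i)
        unfold sm Lg Sm
        ring
    rw [h1, transfer P' S hS (spx 4) hs (gO i), orthS hn β i, mul_zero]
  rw [perp_eq P' S hS (fun ω => sm β (S ω)) G' (memLp_gr P' S hS gs) (1 / β) hG' hO, eS]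
  refine (perp_le P X hX (fun ω => sm β (X ω)) G (memLp_gr P X hX gs) (1 / β) hG).trans ?_
  rw [eX]
  exact mul_le_mul_of_nonneg_left (core4 a ha1 hI β) (sq_nonneg _)
-- END fin4

-- BEGIN sb4
/-- `max ≤ f_β ≤ max + log 4 / β` (as `SM3.sm_bounds`, `SM3.gr_max`) -/
theorem sm_bounds4 (β : ℝ) (hβ : 0 < β) (x : Fin 4 → ℝ) :
    max (max (x 0) (x 1)) (max (x 2) (x 3)) ≤ sm β x ∧
      sm β x ≤ max (max (x 0) (x 1)) (max (x 2) (x 3)) + log 4 / β := by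
  set M := max (max (x 0) (x 1)) (max (x 2) (x 3)) with hM
  have h0 : x 0 ≤ M := (le_max_left _ _).trans (le_max_left _ _)
  have h1 : x 1 ≤ M := (le_max_right _ _).trans (le_max_left _ _)
  have h2 : x 2 ≤ M := (le_max_left _ _).trans (le_max_right _ _)
  have h3 : x 3 ≤ M := (le_max_right _ _).trans (le_max_right _ _)
  have hS : ∑ k, exp (β * x k) =
      exp (β * x 0) + exp (β * x 1) + exp (β * x 2) + exp (β * x 3) := by
    rw [Fin.sum_univ_four]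
  have e0 : exp (β * x 0) ≤ exp (β * M) := exp_le_exp.2 (mul_le_mul_of_nonneg_left h0 hβ.le)
  have e1 : exp (β * x 1) ≤ exp (β * M) := exp_le_exp.2 (mul_le_mul_of_nonneg_left h1 hβ.le)
  have e2 : exp (β * x 2) ≤ exp (β * M) := exp_le_exp.2 (mul_le_mul_of_nonneg_left h2 hβ.le)
  have e3 : exp (β * x 3) ≤ exp (β * M) := exp_le_exp.2 (mul_le_mul_of_nonneg_left h3 hβ.le)
  have p0 := exp_pos (β * x 0)
  have p1 := exp_pos (β * x 1)
  have p2 := exp_pos (β * x 2)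
  have p3 := exp_pos (β * x 3)
  have hSpos : 0 < ∑ k, exp (β * x k) := by rw [hS]; positivity
  have hlow : exp (β * M) ≤ ∑ k, exp (β * x k) := by
    rw [hS]
    rcases max_choice (max (x 0) (x 1)) (max (x 2) (x 3)) with h | h
    · rcases max_choice (x 0) (x 1) with h' | h'
      · rw [← hM, h'] at h; rw [h]; linarith
      · rw [← hM, h'] at h; rw [h]; linarith
    · rcases max_choice (x 2) (x 3) with h' | h'
      · rw [← hM, h'] at h; rw [h]; linarith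
      · rw [← hM, h'] at h; rw [h]; linarith
  have hup : ∑ k, exp (β * x k) ≤ 4 * exp (β * M) := by rw [hS]; linarith
  have l1 : β * M ≤ log (∑ k, exp (β * x k)) := by
    rw [← log_exp (β * M)]
    exact log_le_log (exp_pos _) hlow
  have l2 : log (∑ k, exp (β * x k)) ≤ log 4 + β * M := by
    have h := log_le_log hSpos hup
    rwa [log_mul (by norm_num) (exp_pos _).ne', log_exp] at h
  unfold sm
  constructor
  · rw [one_div, ← div_eq_inv_mul, le_div_iff₀ hβ]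
    linarith
  · rw [one_div, ← div_eq_inv_mul, div_le_iff₀ hβ, add_mul, div_mul_cancel₀ _ hβ.ne']
    linarith

theorem gr_max4 : Gr (fun x : Fin 4 → ℝ => max (max (x 0) (x 1)) (max (x 2) (x 3))) := by
  refine ⟨by fun_prop, 1, 1, zero_le_one, zero_le_one, fun x => ?_⟩
  rw [one_mul, one_mul, Fin.sum_univ_four]
  have a0 := abs_nonneg (x 0)
  have a1 := abs_nonneg (x 1)
  have a2 := abs_nonneg (x 2)
  have a3 := abs_nonneg (x 3)
  have h : |max (max (x 0) (x 1)) (max (x 2) (x 3))| ≤ |x 0| + |x 1| + |x 2| + |x 3| := by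
    rcases max_choice (max (x 0) (x 1)) (max (x 2) (x 3)) with h | h
    · rw [h]
      rcases max_choice (x 0) (x 1) with h' | h'
      · rw [h']; linarith
      · rw [h']; linarith
    · rw [h]
      rcases max_choice (x 2) (x 3) with h' | h'
      · rw [h']; linarith
      · rw [h']; linarith
  exact h.trans ((le_add_of_nonneg_right zero_le_one).trans (add_one_le_exp _))
-- END sb4

-- BEGIN mx4
/-- from the soft-max to the maximum, four coordinates (as `SM3.max_of_soft`) -/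
theorem max_of_soft4 {Ω : Type*} [MeasurableSpace Ω] (P : Measure Ω) [IsProbabilityMeasure P]
    {Ω' : Type*} [MeasurableSpace Ω'] (P' : Measure Ω') [IsProbabilityMeasure P']
    (X : Ω → Fin 4 → ℝ) (S : Ω' → Fin 4 → ℝ) (hX : CG P X) (hS : CG P' S)
    (hsoft : ∀ β : ℝ, 0 < β → ∀ (G : Ω → ℝ) (G' : Ω' → ℝ), IsPerp P X (fun ω => sm β (X ω)) G →
      IsPerp P' S (fun ω => sm β (S ω)) G' →
      ∫ ω, (G ω + 1 / β) ^ 2 ∂P ≤ ∫ ω, (G' ω + 1 / β) ^ 2 ∂P')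
    (G : Ω → ℝ) (G' : Ω' → ℝ)
    (hG : IsPerp P X (fun ω => max (max (X ω 0) (X ω 1)) (max (X ω 2) (X ω 3))) G)
    (hG' : IsPerp P' S (fun ω => max (max (S ω 0) (S ω 1)) (max (S ω 2) (S ω 3))) G') :
    ∫ ω, G ω ^ 2 ∂P ≤ ∫ ω, G' ω ^ 2 ∂P' := by
  have gs : ∀ β : ℝ, Gr (fun x : Fin 4 → ℝ => sm β x) := by
    intro β
    have e : (fun x : Fin 4 → ℝ => sm β x) = fun x => 1 / β * Lg β x := rfl
    rw [e]
    exact (Gr.Lg β).const_mul _
  refine lim_step _ _ (2 * log 4 ^ 2 + 2) fun β hβ => ?_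
  obtain ⟨H, hH⟩ := exists_perp (by norm_num : 0 < 4) β hβ.ne' P X hX
  obtain ⟨H', hH'⟩ := exists_perp (by norm_num : 0 < 4) β hβ.ne' P' S hS
  have hc : 0 ≤ log 4 / β := div_nonneg (Real.log_nonneg (by norm_num)) hβ.le
  have hb : ∀ x : Fin 4 → ℝ, |max (max (x 0) (x 1)) (max (x 2) (x 3)) - sm β x| ≤ log 4 / β := by
    intro x
    obtain ⟨h1, h2⟩ := sm_bounds4 β hβ x
    rw [abs_le]
    constructor <;> linarith
  have hcal : (1 + 1 / (1 / β)) * (2 * (log 4 / β) ^ 2 + 2 * (1 / β) ^ 2) =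
      (1 + β) * ((2 * log 4 ^ 2 + 2) / β ^ 2) := by
    field_simp
  have s1 := (comp_step P X hX
    (fun ω => max (max (X ω 0) (X ω 1)) (max (X ω 2) (X ω 3))) (fun ω => sm β (X ω))
    G H (memLp_gr P X hX gr_max4) (memLp_gr P X hX (gs β)) hG hH (1 / β) (log 4 / β) (1 / β)
    (by positivity) hc (fun ω => hb (X ω))).1
  have s2 := (comp_step P' S hS
    (fun ω => max (max (S ω 0) (S ω 1)) (max (S ω 2) (S ω 3))) (fun ω => sm β (S ω))
    G' H' (memLp_gr P' S hS gr_max4) (memLp_gr P' S hS (gs β)) hG' hH' (1 / β) (log 4 / β) (1 / β)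
    (by positivity) hc (fun ω => hb (S ω))).2
  rw [hcal] at s1 s2
  exact ⟨_, _, s1, hsoft β hβ H H' hH hH', s2⟩
-- END mx4

end SM4
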